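import Pool.Agent.W217.BE.Stm2

set_option autoImplicit false

/-! Project BE, second wave, part REGR0: slabs of a graded module. -/

namespace Pool.Agent.W109.BEREGR0

open Pool.Agent.W217.BE

theorem main : REGR0 := by
  intro A _ k M _ _ ℳ hℳ
  rw [DirectSum.isInternal_submodule_iff_iSupIndep_and_iSup_eq_top] at hℳ
  obtain ⟨hind, htop⟩ := hℳ
  have hset : ∀ t : ℤ, (⨆ b : Fin k → ℤ, ℳ (Fin.cons t b)) =
      ⨆ i ∈ {a : Fin (k + 1) → ℤ | a 0 = t}, ℳ i := by
    intro t
    apply le_antisymm
    · refine iSup_le fun b => ?_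
      exact le_biSup ℳ (show (Fin.cons t b : Fin (k + 1) → ℤ) ∈ {a : Fin (k + 1) → ℤ | a 0 = t} by
        simp)
    · refine iSup₂_le fun a ha => ?_
      have : a = (Fin.cons t (Fin.tail a) : Fin (k + 1) → ℤ) := by
        have h0 : a 0 = t := ha
        rw [← h0, Fin.cons_self_tail]
      rw [this]
      exact le_iSup (fun b : Fin k → ℤ => ℳ (Fin.cons t b)) (Fin.tail a)
  constructor
  · rw [DirectSum.isInternal_submodule_iff_iSupIndep_and_iSup_eq_top]
    constructor
    · rw [iSupIndep_def]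
      intro t
      have h2 : (⨆ (j : ℤ) (_ : j ≠ t), ⨆ b : Fin k → ℤ, ℳ (Fin.cons j b)) ≤
          ⨆ i ∈ {a : Fin (k + 1) → ℤ | a 0 ≠ t}, ℳ i := by
        refine iSup₂_le fun j hj => iSup_le fun b => ?_
        exact le_biSup ℳ (show (Fin.cons j b : Fin (k + 1) → ℤ) ∈
          {a : Fin (k + 1) → ℤ | a 0 ≠ t} by simpa using hj)
      refine Disjoint.mono_right h2 ?_
      change Disjoint (⨆ b : Fin k → ℤ, ℳ (Fin.cons t b)) _
      rw [hset t]
      refine hind.disjoint_biSup_biSup ?_
      rw [Set.disjoint_left]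
      intro a ha hb
      exact hb ha
    · rw [eq_top_iff, ← htop]
      refine iSup_le fun a => ?_
      have : a = (Fin.cons (a 0) (Fin.tail a) : Fin (k + 1) → ℤ) := by
        rw [Fin.cons_self_tail]
      rw [this]
      exact le_iSup_of_le (a 0) (le_iSup (fun b : Fin k → ℤ => ℳ (Fin.cons (a 0) b)) (Fin.tail a))
  · intro t
    have hinj : Function.Injective (fun b : Fin k → ℤ => (Fin.cons t b : Fin (k + 1) → ℤ)) := by
      intro b b' h
      exact (Fin.cons_injective2 h).2
    have hind' : iSupIndep (fun b : Fin k → ℤ => ℳ (Fin.cons t b)) := hind.comp hinj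
    rw [DirectSum.isInternal_submodule_iff_iSupIndep_and_iSup_eq_top]
    have hp : ∀ b : Fin k → ℤ, ℳ (Fin.cons t b) ≤ ⨆ b : Fin k → ℤ, ℳ (Fin.cons t b) :=
      fun b => le_iSup (fun b : Fin k → ℤ => ℳ (Fin.cons t b)) b
    constructor
    · let p := ⨆ b : Fin k → ℤ, ℳ (Fin.cons t b)
      let e : Submodule A p ≃o Set.Iic p := p.mapIic
      suffices (e ∘ fun b : Fin k → ℤ => (ℳ (Fin.cons t b)).comap p.subtype) =
          fun b => (⟨ℳ (Fin.cons t b), hp b⟩ : Set.Iic p) by
        rw [← iSupIndep_map_orderIso_iff e, this]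
        exact .of_coe_Iic_comp hind'
      ext b m
      change m ∈ ((ℳ (Fin.cons t b)).comap p.subtype).map p.subtype ↔ _
      rw [Submodule.map_comap_subtype, inf_of_le_right (hp b)]
    · apply Submodule.map_injective_of_injective
        (Submodule.subtype_injective (⨆ b : Fin k → ℤ, ℳ (Fin.cons t b)))
      rw [Submodule.map_iSup, Submodule.map_top, Submodule.range_subtype]
      congr 1
      funext b
      rw [Submodule.map_comap_subtype, inf_of_le_right (hp b)]

end Pool.Agent.W109.BEREGR0
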