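import Pool.Agent.W109.Dg
import Pool.Agent.H442R2.BX.Du
import Pool.Agent.H442R2.BX.Pr
import Pool.Agent.H442R2.BX.Bk
import Pool.Agent.H442R2.BX.Rt

/-!
The Bessel inequality in `ℓ²` over the residues and the moduli: one coarse block.
-/

set_option autoImplicit false

namespace Pool.Agent.W109

open Finset
open Pool.Agent.H442R2.KF
open Pool.Agent.H442R2.BX

/-- duality with a bound `G a` for the diagonal which depends on `a` -/
theorem dual2 (w : ℤ → ℝ) (hw : ∀ n, 0 ≤ w n) (S : Finset ℕ)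
    (hS : ∀ p ∈ S, (1 : ℝ) ≤ 25 * w p)
    (A : Finset ℤ) (r : ℤ → ℤ → ℝ) (f : ℕ → ℝ)
    (hs : ∀ a ∈ A, ∀ a' ∈ A, Summable (fun n : ℤ => w n * (r a n * r a' n)))
    (G : ℤ → ℝ) (O : ℝ) (hG : ∀ a ∈ A, ∑' n : ℤ, w n * (r a n * r a n) ≤ G a) (hO : 0 ≤ O)
    (hB : ∀ a ∈ A, ∀ a' ∈ A, a ≠ a' → |∑' n : ℤ, w n * (r a n * r a' n)| ≤ O) :
    (∑ a ∈ A, ∑ p ∈ S, f p * r a p) ^ 2 ≤
      25 * (∑ p ∈ S, f p ^ 2) * (∑ a ∈ A, G a + (A.card : ℝ) ^ 2 * O) := by
  set F : ℝ := ∑ p ∈ S, f p ^ 2 with hF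
  have hF0 : 0 ≤ F := Finset.sum_nonneg (fun p _ => sq_nonneg _)
  have e1 : ∑ a ∈ A, ∑ p ∈ S, f p * r a p = ∑ p ∈ S, f p * ∑ a ∈ A, 1 * r a p := by
    rw [Finset.sum_comm]
    refine Finset.sum_congr rfl fun p _ => ?_
    rw [Finset.mul_sum]
    refine Finset.sum_congr rfl fun a _ => ?_
    ring
  have h1 : (∑ a ∈ A, ∑ p ∈ S, f p * r a p) ^ 2 ≤ F * ∑ p ∈ S, (∑ a ∈ A, 1 * r a p) ^ 2 := by
    rw [e1]
    exact Finset.sum_mul_sq_le_sq_mul_sq S f (fun p => ∑ a ∈ A, 1 * r a p)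
  have h2 : ∑ p ∈ S, (∑ a ∈ A, 1 * r a p) ^ 2 ≤
      25 * ∑ p ∈ S, w p * (∑ a ∈ A, 1 * r a p) ^ 2 := by
    rw [Finset.mul_sum]
    apply Finset.sum_le_sum
    intro p hp
    have := mul_le_mul_of_nonneg_right (hS p hp) (sq_nonneg (∑ a ∈ A, 1 * r a p))
    linarith
  have h3 : ∑ p ∈ S, w p * (∑ a ∈ A, 1 * r a p) ^ 2 ≤
      ∑' n : ℤ, w n * (∑ a ∈ A, 1 * r a n) ^ 2 := by
    have := (TaskDU.summ (Y := fun _ => 1) hs).sum_le_tsum (S.map Nat.castEmbedding)
      (fun n _ => mul_nonneg (hw n) (sq_nonneg _))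
    rw [Finset.sum_map] at this
    exact this
  have h4 : ∑' n : ℤ, w n * (∑ a ∈ A, 1 * r a n) ^ 2 ≤ ∑ a ∈ A, G a + (A.card : ℝ) ^ 2 * O := by
    rw [TaskDU.tsum_eq (Y := fun _ => 1) hs]
    calc ∑ a ∈ A, ∑ a' ∈ A, 1 * 1 * ∑' n : ℤ, w n * (r a n * r a' n)
        ≤ ∑ a ∈ A, ∑ a' ∈ A, ((if a = a' then G a else 0) + O) := by
          refine Finset.sum_le_sum fun a ha => Finset.sum_le_sum fun a' ha' => ?_
          rw [one_mul, one_mul]
          by_cases h : a = a'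
          · subst h
            rw [if_pos rfl]
            linarith [hG a ha]
          · rw [if_neg h, zero_add]
            exact (le_abs_self _).trans (hB a ha a' ha' h)
      _ = ∑ a ∈ A, G a + (A.card : ℝ) ^ 2 * O := by
          have e : ∀ a ∈ A, ∑ a' ∈ A, ((if a = a' then G a else 0) + O) = G a + A.card * O := by
            intro a ha
            rw [Finset.sum_add_distrib, Finset.sum_ite_eq A a, if_pos ha, Finset.sum_const,
              nsmul_eq_mul]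
          rw [Finset.sum_congr rfl e, Finset.sum_add_distrib, Finset.sum_const, nsmul_eq_mul]
          ring
  calc _ ≤ F * ∑ p ∈ S, (∑ a ∈ A, 1 * r a p) ^ 2 := h1
    _ ≤ F * (25 * (∑ a ∈ A, G a + (A.card : ℝ) ^ 2 * O)) := by
        refine mul_le_mul_of_nonneg_left ?_ hF0
        linarith
    _ = _ := by ring

/-- the prime side, for arbitrary coefficients -/
theorem PR2 (hPB : St_PB) (hRT : St_RT) :
    ∀ ε : ℝ, 0 < ε → ∃ (N₀ : ℕ) (C : ℝ), 0 < C ∧ ∀ (N z X : ℕ), N₀ ≤ N → X ≤ N →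
    ∀ f : ℕ → ℝ, (∀ p, |f p| ≤ 1) → ∀ a : ℤ, |(a : ℝ)| ≤ N →
    ∀ c : ℕ → ℝ, CofR ((N : ℝ) ^ ε) X c →
      |∑ d ∈ Icc 1 X, c d * Df f N a d -
        ∑ p ∈ (Icc 1 N).filter (fun p => p.Prime ∧ z < p), f p * rf c X a p| ≤
          C * (z + X + (N : ℝ) ^ (1 - ε / 2)) := by
  intro ε hε
  obtain ⟨N₁, C₁, hC₁, hPB⟩ := hPB ε hε
  obtain ⟨C₂, hC₂, hRT⟩ := hRT ε hε
  refine ⟨max N₁ 2, 2 * C₁ + 1 + C₂, by positivity, ?_⟩
  intro N z X hN hXN f hf a ha c hc
  have hN1 : N₁ ≤ N := (le_max_left _ _).trans hN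
  have hN2 : 2 ≤ N := (le_max_right _ _).trans hN
  have hNpos : (0 : ℝ) < N := by exact_mod_cast (by omega : 0 < N)
  set P := (Icc 1 N).filter Nat.Prime with hP
  set F := ∑ p ∈ P, f p with hF
  -- number of primes
  have hPcard : (P.card : ℝ) ≤ N := by
    have : P.card ≤ (Icc 1 N).card := Finset.card_filter_le _ _
    rw [Nat.card_Icc] at this
    exact_mod_cast (by omega : P.card ≤ N)
  have hFabs : |F| ≤ N := by
    refine (Finset.abs_sum_le_sum_abs _ _).trans ?_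
    refine (Finset.sum_le_sum (fun p _ => hf p)).trans ?_
    simpa using hPcard
  -- the error from the totients
  have hE : |F * ∑ d ∈ Icc 1 X, c d * (1 / (Nat.totient d : ℝ) - 1 / (d : ℝ))| ≤
      C₂ * (N : ℝ) ^ (1 - ε / 2) := by
    have hnn : ∀ d : ℕ, 1 ≤ d → 0 ≤ 1 / (Nat.totient d : ℝ) - 1 / (d : ℝ) := by
      intro d hd
      have h1 : 0 < Nat.totient d := Nat.totient_pos.2 hd
      have h2 : (Nat.totient d : ℝ) ≤ d := by exact_mod_cast Nat.totient_le d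
      have h1' : (0 : ℝ) < Nat.totient d := by exact_mod_cast h1
      have := one_div_le_one_div_of_le h1' h2
      linarith
    have hs : |∑ d ∈ Icc 1 X, c d * (1 / (Nat.totient d : ℝ) - 1 / (d : ℝ))| ≤
        C₂ * (N : ℝ) ^ (-(ε / 2)) := by
      refine (Finset.abs_sum_le_sum_abs _ _).trans ?_
      refine le_trans ?_ (hRT N hN2)
      have hzero : ∀ d ∈ Icc 1 X, d ∉ roughs ((N : ℝ) ^ ε) X → c d = 0 := by
        intro d hd hn
        by_contra h
        rw [mem_Icc] at hd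
        exact hn (mem_roughs.2 ⟨hd, (hc.supp d h).2⟩)
      have hsub : roughs ((N : ℝ) ^ ε) X ⊆ Icc 1 X := fun d hd => by
        rw [mem_Icc]; exact (mem_roughs.1 hd).1
      rw [← sum_subset hsub (fun d hd hn => by rw [hzero d hd hn, zero_mul, abs_zero])]
      calc ∑ d ∈ roughs ((N : ℝ) ^ ε) X, |c d * (1 / (Nat.totient d : ℝ) - 1 / (d : ℝ))|
          ≤ ∑ d ∈ roughs ((N : ℝ) ^ ε) X, (1 / (Nat.totient d : ℝ) - 1 / (d : ℝ)) := by
            apply Finset.sum_le_sum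
            intro d hd
            have h0 := hnn d (mem_roughs.1 hd).1.1
            rw [abs_mul, abs_of_nonneg h0]
            calc |c d| * _ ≤ 1 * (1 / (Nat.totient d : ℝ) - 1 / (d : ℝ)) :=
                  mul_le_mul_of_nonneg_right (hc.bd d) h0
              _ = _ := one_mul _
        _ ≤ ∑ d ∈ roughs ((N : ℝ) ^ ε) N, (1 / (Nat.totient d : ℝ) - 1 / (d : ℝ)) := by
            apply Finset.sum_le_sum_of_subset_of_nonneg (roughs_mono _ hXN)
            intro d hd _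
            apply hnn
            exact (mem_roughs.1 hd).1.1
    rw [abs_mul]
    calc |F| * |∑ d ∈ Icc 1 X, c d * (1 / (Nat.totient d : ℝ) - 1 / (d : ℝ))|
        ≤ N * (C₂ * (N : ℝ) ^ (-(ε / 2))) :=
          mul_le_mul hFabs hs (abs_nonneg _) hNpos.le
      _ = C₂ * (N : ℝ) ^ (1 - ε / 2) := by
          rw [sub_eq_add_neg, Real.rpow_add hNpos, Real.rpow_one]
          ring
  -- the main identity
  have hid : ∑ d ∈ Icc 1 X, c d * Df f N a d = ∑ p ∈ P, f p * Rf c X a p -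
      F * ∑ d ∈ Icc 1 X, c d * (1 / (Nat.totient d : ℝ) - 1 / (d : ℝ)) := by
    have h2 : ∑ p ∈ P, f p * Rf c X a p =
        ∑ d ∈ Icc 1 X, c d * ∑ p ∈ P, f p * dl d ((p : ℤ) - a) := by
      have h3 : ∀ p ∈ P, f p * Rf c X a p = ∑ d ∈ Icc 1 X, c d * (f p * dl d ((p : ℤ) - a)) := by
        intro p _
        unfold Rf
        rw [Finset.mul_sum]
        apply Finset.sum_congr rfl
        intro d _
        ring
      rw [Finset.sum_congr rfl h3, Finset.sum_comm]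
      apply Finset.sum_congr rfl
      intro d _
      rw [Finset.mul_sum]
    rw [h2, Finset.mul_sum, ← Finset.sum_sub_distrib]
    apply Finset.sum_congr rfl
    intro d _
    rw [TaskPR.Df_eq]
    ring
  -- replace Rf by rf
  have hself : |∑ p ∈ P, f p * (Rf c X a p - rf c X a p)| ≤ X := by
    have hz : ∀ p ∈ P, (p : ℤ) ≠ a → f p * (Rf c X a p - rf c X a p) = 0 := by
      intro p _ hp
      unfold rf
      rw [if_neg hp, sub_self, mul_zero]
    by_cases hex : ∃ p ∈ P, (p : ℤ) = a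
    · obtain ⟨p₀, hp₀, hp₀a⟩ := hex
      rw [Finset.sum_eq_single_of_mem p₀ hp₀]
      · have h1 : rf c X a (p₀ : ℤ) = 0 := by
          unfold rf
          rw [if_pos hp₀a]
        rw [h1, sub_zero, hp₀a, abs_mul]
        calc |f p₀| * |Rf c X a a| ≤ 1 * X :=
              mul_le_mul (hf p₀) (TaskPR.Rf_self c X a hc.bd) (abs_nonneg _)
                zero_le_one
          _ = X := one_mul _
      · intro p hp hpne
        apply hz p hp
        intro h
        apply hpne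
        have : (p : ℤ) = (p₀ : ℤ) := h.trans hp₀a.symm
        exact_mod_cast this
    · have h0 : ∑ p ∈ P, f p * (Rf c X a p - rf c X a p) = 0 := by
        apply Finset.sum_eq_zero
        intro p hp
        apply hz p hp
        intro h
        exact hex ⟨p, hp, h⟩
      rw [h0, abs_zero]
      positivity
  -- small primes
  have hsmall : |∑ p ∈ P.filter (fun p => ¬ z < p), f p * rf c X a p| ≤ 2 * C₁ * z := by
    refine (Finset.abs_sum_le_sum_abs _ _).trans ?_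
    have hterm : ∀ p ∈ P.filter (fun p => ¬ z < p), |f p * rf c X a p| ≤ 2 * C₁ := by
      intro p hp
      have hpP := (Finset.mem_filter.1 hp).1
      have hpN : p ≤ N := (Finset.mem_Icc.1 (Finset.mem_filter.1 hpP).1).2
      have h1 := hPB N X hN1 hXN c hc a p ha
      have h2 : (1 + |(((p : ℕ) : ℤ) : ℝ)| / N) ≤ 2 := by
        have h3 : |(((p : ℕ) : ℤ) : ℝ)| = (p : ℝ) := by
          rw [Int.cast_natCast]
          exact abs_of_nonneg (Nat.cast_nonneg p)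
        rw [h3]
        have h4 : (p : ℝ) / N ≤ 1 := by
          rw [div_le_one hNpos]
          exact_mod_cast hpN
        linarith
      have h0 : (0 : ℝ) ≤ 1 + |(((p : ℕ) : ℤ) : ℝ)| / N := by positivity
      have h5 : (1 + |(((p : ℕ) : ℤ) : ℝ)| / N) ^ (1 / 4 : ℝ) ≤ 2 := by
        calc (1 + |(((p : ℕ) : ℤ) : ℝ)| / N) ^ (1 / 4 : ℝ) ≤ (2 : ℝ) ^ (1 / 4 : ℝ) :=
              Real.rpow_le_rpow h0 h2 (by norm_num)
          _ ≤ (2 : ℝ) ^ (1 : ℝ) := Real.rpow_le_rpow_of_exponent_le (by norm_num) (by norm_num)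
          _ = 2 := Real.rpow_one 2
      rw [abs_mul]
      calc |f p| * |rf c X a p| ≤ 1 * (C₁ * (1 + |(((p : ℕ) : ℤ) : ℝ)| / N) ^ (1 / 4 : ℝ)) :=
            mul_le_mul (hf p) h1 (abs_nonneg _) zero_le_one
        _ ≤ 2 * C₁ := by nlinarith
    refine (Finset.sum_le_sum hterm).trans ?_
    rw [Finset.sum_const, nsmul_eq_mul]
    have hcard : (P.filter (fun p => ¬ z < p)).card ≤ z := by
      have hsub : P.filter (fun p => ¬ z < p) ⊆ Icc 1 z := by
        intro p hp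
        rw [Finset.mem_filter] at hp
        have h1 := Finset.mem_Icc.1 (Finset.mem_filter.1 hp.1).1
        exact Finset.mem_Icc.2 ⟨h1.1, not_lt.1 hp.2⟩
      calc (P.filter (fun p => ¬ z < p)).card ≤ (Icc 1 z).card := Finset.card_le_card hsub
        _ = z := by rw [Nat.card_Icc]; omega
    have hcard' : ((P.filter (fun p => ¬ z < p)).card : ℝ) ≤ z := by exact_mod_cast hcard
    calc ((P.filter (fun p => ¬ z < p)).card : ℝ) * (2 * C₁) ≤ z * (2 * C₁) :=
          mul_le_mul_of_nonneg_right hcard' (by positivity)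
      _ = 2 * C₁ * z := by ring
  -- splitting
  have hsplit : ∑ p ∈ P, f p * Rf c X a p =
      ∑ p ∈ P.filter (fun p => z < p), f p * rf c X a p +
      ∑ p ∈ P.filter (fun p => ¬ z < p), f p * rf c X a p +
      ∑ p ∈ P, f p * (Rf c X a p - rf c X a p) := by
    rw [Finset.sum_filter_add_sum_filter_not, ← Finset.sum_add_distrib]
    apply Finset.sum_congr rfl
    intro p _
    ring
  have hfil : (Icc 1 N).filter (fun p => p.Prime ∧ z < p) = P.filter (fun p => z < p) := by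
    rw [hP, Finset.filter_filter]
  rw [hfil, hid, hsplit]
  have hz0 : (0 : ℝ) ≤ z := Nat.cast_nonneg z
  have hX0 : (0 : ℝ) ≤ X := Nat.cast_nonneg X
  have hp0 : 0 ≤ (N : ℝ) ^ (1 - ε / 2) := by positivity
  have k1 : 2 * C₁ * z ≤ (2 * C₁ + 1 + C₂) * z := by nlinarith
  have k2 : (X : ℝ) ≤ (2 * C₁ + 1 + C₂) * X := by nlinarith
  have k3 : C₂ * (N : ℝ) ^ (1 - ε / 2) ≤ (2 * C₁ + 1 + C₂) * (N : ℝ) ^ (1 - ε / 2) := by nlinarith
  have k4 : (2 * C₁ + 1 + C₂) * (z + X + (N : ℝ) ^ (1 - ε / 2)) =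
      (2 * C₁ + 1 + C₂) * z + (2 * C₁ + 1 + C₂) * X +
        (2 * C₁ + 1 + C₂) * (N : ℝ) ^ (1 - ε / 2) := by ring
  rw [k4]
  have b1 := abs_le.1 hsmall
  have b2 := abs_le.1 hself
  have b3 := abs_le.1 hE
  rw [abs_le]
  constructor <;> linarith [b1.1, b1.2, b2.1, b2.2, b3.1, b3.2]

/-- the pointwise bound of Brun and Titchmarsh for the discrepancy, from the sieve weights -/
theorem bt_df (hSM : St_SM) (hGW : St_GW) :
    ∀ ε e0 : ℝ, 0 < ε → 0 < e0 → ∃ (N₀ : ℕ) (K : ℝ), 0 < K ∧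
    ∀ (N z d : ℕ), N₀ ≤ N → 2 ≤ z → 1 ≤ d → d ≤ N → (z : ℝ) ≤ (N : ℝ) ^ (1 / 4 : ℝ) →
    (d : ℝ) ≤ (N : ℝ) ^ (14 / 27 : ℝ) →
    (z : ℝ) * z * d ≤ (N : ℝ) ^ (9 / 10 : ℝ) → (z : ℝ) ≤ (N : ℝ) ^ ε →
    e0 / 2 * Real.log N ≤ Real.log z → ∀ lam : ℕ → ℝ, SW z lam → Rough ((N : ℝ) ^ ε) d →
    ∀ f : ℕ → ℝ, (∀ p, |f p| ≤ 1) → ∀ a : ℤ, |Df f N a d| ≤ K * (N / Real.log N) / d := by
  intro ε e0 hε he0
  obtain ⟨N₁, hP⟩ := PS hSM
  obtain ⟨N₂, hG⟩ := hGW
  -- `N^(1/4) N^(14/27) ≤ N / log N` for large `N`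
  have hev : ∀ᶠ N : ℕ in Filter.atTop, Real.log N ≤ (N : ℝ) ^ (1 / 5 : ℝ) := by
    have h1 := (isLittleO_log_rpow_atTop (by norm_num : (0:ℝ) < 1 / 5)).comp_tendsto
      (tendsto_natCast_atTop_atTop (R := ℝ))
    have h2 := h1.def (c := 1) one_pos
    filter_upwards [h2, Filter.eventually_ge_atTop 3] with N hN hN3
    simp only [Function.comp_apply, Real.norm_eq_abs] at hN
    have h3 : (0 : ℝ) ≤ (N : ℝ) ^ (1 / 5 : ℝ) := by positivity
    rw [abs_of_nonneg h3, one_mul] at hN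
    exact (le_abs_self _).trans hN
  obtain ⟨N₃, hN₃⟩ := Filter.eventually_atTop.1 hev
  refine ⟨N₁ + N₂ + N₃ + 3, (1 + 75 * (2 / e0)) + (1 + 75 * (2 / e0)) *
    (1 + (2 : ℝ) ^ (1 / ε) / ε), by positivity, ?_⟩
  intro N z d hN hz hd hdN hz4 hd14 hzzd hzε hlz lam hlam hr f hf a
  have hN1 : 1 ≤ N := by omega
  have hN2 : 2 ≤ N := by omega
  have hN3' : (3 : ℝ) ≤ N := by exact_mod_cast (by omega : 3 ≤ N)
  have hNr : (1 : ℝ) ≤ N := by linarith
  have hN0 : (0 : ℝ) < N := by linarith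
  have hL0 : 0 < Real.log N := Real.log_pos (by linarith)
  have hlz0 : 0 < Real.log z := lt_of_lt_of_le (by positivity) hlz
  have hd0 : (0 : ℝ) < d := by exact_mod_cast hd
  have hd1 : (1 : ℝ) ≤ d := by exact_mod_cast hd
  obtain ⟨y, hy⟩ : ∃ y : ℝ, y = N / Real.log N := ⟨_, rfl⟩
  have hy0 : 0 < y := by rw [hy]; positivity
  have hNz : N / Real.log z ≤ 2 / e0 * y := by
    rw [hy, div_le_iff₀ hlz0]
    calc (N : ℝ) = 2 / e0 * (N / Real.log N) * (e0 / 2 * Real.log N) := by field_simp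
      _ ≤ 2 / e0 * (N / Real.log N) * Real.log z := by gcongr
  -- `z d ≤ y`
  have hzd : (z : ℝ) * d ≤ y := by
    have h1 : (z : ℝ) * d ≤ (N : ℝ) ^ (1 / 4 : ℝ) * (N : ℝ) ^ (14 / 27 : ℝ) :=
      mul_le_mul hz4 hd14 hd0.le (by positivity)
    have h2 := hN₃ N (by omega)
    rw [hy, le_div_iff₀ hL0]
    calc (z : ℝ) * d * Real.log N
        ≤ (N : ℝ) ^ (1 / 4 : ℝ) * (N : ℝ) ^ (14 / 27 : ℝ) * (N : ℝ) ^ (1 / 5 : ℝ) :=
          mul_le_mul h1 h2 hL0.le (by positivity)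
      _ = (N : ℝ) ^ (1 / 4 + 14 / 27 + 1 / 5 : ℝ) := by
          rw [← Real.rpow_add hN0, ← Real.rpow_add hN0]
      _ ≤ (N : ℝ) ^ (1 : ℝ) := Real.rpow_le_rpow_of_exponent_le hNr (by norm_num)
      _ = N := Real.rpow_one _
  -- a general bound for the number of primes in a set
  have hcount : ∀ (m : ℕ) (b : ℤ), 1 ≤ m → ((z : ℝ) * z * m ≤ (N : ℝ) ^ (9 / 10 : ℝ)) →
      (∀ q, 1 ≤ q → q ≤ z → Nat.Coprime q m) → (z : ℝ) * m ≤ y →
      (((Icc 1 N).filter (fun p : ℕ => p.Prime ∧ (m : ℤ) ∣ (p : ℤ) - b)).card : ℝ) ≤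
        (1 + 75 * (2 / e0)) * (y / m) := by
    intro m b hm hzm hcop hzmy
    have hm0 : (0 : ℝ) < m := by exact_mod_cast hm
    have h1 := hP N z m (by omega) hz hm hzm lam hlam hcop b
    set T := (Icc 1 N).filter (fun p : ℕ => p.Prime ∧ (m : ℤ) ∣ (p : ℤ) - b) with hT
    have hsplit : (T.card : ℝ) = ((T.filter (fun p => z < p)).card : ℝ) +
        ((T.filter (fun p => ¬ z < p)).card : ℝ) := by
      exact_mod_cast (Finset.card_filter_add_card_filter_not (s := T) (fun p => z < p)).symm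
    have hs2 : ((T.filter (fun p => ¬ z < p)).card : ℝ) ≤ z := by
      have hsub : T.filter (fun p => ¬ z < p) ⊆ Icc 1 z := by
        intro p hp
        rw [Finset.mem_filter] at hp
        have h1 := Finset.mem_Icc.1 (Finset.mem_filter.1 hp.1).1
        exact Finset.mem_Icc.2 ⟨h1.1, not_lt.1 hp.2⟩
      have : (T.filter (fun p => ¬ z < p)).card ≤ z := by
        calc _ ≤ (Icc 1 z).card := Finset.card_le_card hsub
          _ = z := by rw [Nat.card_Icc]; omega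
      exact_mod_cast this
    have hs1 : ((T.filter (fun p => z < p)).card : ℝ) ≤
        25 * ∑' n : ℤ, Wt N n * nuS lam z n * (if (m : ℤ) ∣ n - b then 1 else 0) := by
      have hsum : Summable (fun n : ℤ => Wt N n * nuS lam z n *
          (if (m : ℤ) ∣ n - b then (1:ℝ) else 0)) := by
        refine Summable.of_nonneg_of_le (fun n => ?_) (fun n => ?_)
          (TaskDI.sum_nuS (lam := lam) (z := z) hlam.bd N (by omega))
        · exact mul_nonneg (mul_nonneg (Real.exp_pos _).le (TaskDI.nuS_nonneg _ _ _))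
            (by split_ifs <;> norm_num)
        · have h1 : 0 ≤ Wt N n * nuS lam z n :=
            mul_nonneg (Real.exp_pos _).le (TaskDI.nuS_nonneg _ _ _)
          split_ifs
          · linarith
          · simpa using h1
      have h3 := hsum.sum_le_tsum
          ((T.filter (fun p => z < p)).map ⟨(fun p : ℕ => (p : ℤ)), Nat.cast_injective⟩)
          (fun n _ => mul_nonneg (mul_nonneg (Real.exp_pos _).le (TaskDI.nuS_nonneg _ _ _))
            (by split_ifs <;> norm_num))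
      rw [sum_map] at h3
      refine le_trans ?_ (mul_le_mul_of_nonneg_left h3 (by norm_num : (0:ℝ) ≤ 25))
      rw [mul_sum]
      have h4 : ((T.filter (fun p => z < p)).card : ℝ) = ∑ p ∈ T.filter (fun p => z < p), (1:ℝ) := by
        simp
      rw [h4]
      refine sum_le_sum fun p hp => ?_
      rw [mem_filter, hT, mem_filter, mem_Icc] at hp
      have h5 := TaskBK.w_prime hlam (by omega : 1 ≤ z) hp.1.2.1 hp.2 hp.1.1.2
      have h6 : (m : ℤ) ∣ ((⟨(fun p : ℕ => (p : ℤ)), Nat.cast_injective⟩ : ℕ ↪ ℤ) p) - b :=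
        hp.1.2.2
      rw [if_pos h6, mul_one]
      exact h5
    have h5 : N / (m * Real.log z) ≤ 2 / e0 * (y / m) := by
      calc (N : ℝ) / (m * Real.log z) = (N / Real.log z) / m := by
            rw [div_div, mul_comm]
        _ ≤ (2 / e0 * y) / m := by gcongr
        _ = _ := by ring
    have h6 : (z : ℝ) ≤ y / m := by
      rw [le_div_iff₀ hm0]
      exact hzmy
    rw [hsplit]
    nlinarith
  have hset : ∀ s : Finset ℕ, |∑ p ∈ s, f p| ≤ s.card := by
    intro s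
    refine (abs_sum_le_sum_abs _ _).trans ?_
    refine (sum_le_card_nsmul _ _ 1 (fun q _ => hf q)).trans ?_
    rw [nsmul_eq_mul, mul_one]
  -- first sum
  have hA : |∑ p ∈ (Icc 1 N).filter (fun p : ℕ => p.Prime ∧ (p : ℤ) ≡ a [ZMOD d]), f p| ≤
      (1 + 75 * (2 / e0)) * (y / d) := by
    refine (hset _).trans ?_
    have h1 := hcount d a hd hzzd (fun q h1 h2 => coprime_of_rough hzε hr h1 h2) hzd
    refine le_trans ?_ h1
    have h2 : (Icc 1 N).filter (fun p : ℕ => p.Prime ∧ (p : ℤ) ≡ a [ZMOD d]) ⊆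
        (Icc 1 N).filter (fun p : ℕ => p.Prime ∧ (d : ℤ) ∣ (p : ℤ) - a) := by
      intro p hp
      rw [mem_filter] at hp ⊢
      exact ⟨hp.1, hp.2.1, Int.modEq_iff_dvd.1 hp.2.2.symm⟩
    exact_mod_cast card_le_card h2
  have hB : |∑ p ∈ (Icc 1 N).filter Nat.Prime, f p| ≤ (1 + 75 * (2 / e0)) * y := by
    refine (hset _).trans ?_
    have hz1 : (z : ℝ) * z * ((1 : ℕ) : ℝ) ≤ (N : ℝ) ^ (9 / 10 : ℝ) := by
      refine le_trans ?_ hzzd
      push_cast
      have : (0 : ℝ) ≤ (z : ℝ) * z := by positivity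
      nlinarith
    have hz2 : (z : ℝ) * ((1 : ℕ) : ℝ) ≤ y := by
      refine le_trans ?_ hzd
      push_cast
      have : (0 : ℝ) ≤ (z : ℝ) := by positivity
      nlinarith
    have h1 := hcount 1 0 le_rfl hz1 (fun q _ _ => Nat.coprime_one_right q) hz2
    have h3 : y / ((1 : ℕ) : ℝ) = y := by simp
    rw [h3] at h1
    refine le_trans ?_ h1
    have h2 : (Icc 1 N).filter Nat.Prime ⊆
        (Icc 1 N).filter (fun p : ℕ => p.Prime ∧ ((1 : ℕ) : ℤ) ∣ (p : ℤ) - 0) := by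
      intro p hp
      rw [mem_filter] at hp ⊢
      exact ⟨hp.1, hp.2, by simp⟩
    exact_mod_cast card_le_card h2
  -- the totient
  have hT := TaskRT.term hε hN2 hd hdN hr
  have hNε : (N : ℝ) ^ (-ε) ≤ 1 := Real.rpow_le_one_of_one_le_of_nonpos hNr (by linarith)
  have hφ : 1 / (Nat.totient d : ℝ) ≤ (1 + (2 : ℝ) ^ (1 / ε) / ε) * (1 / d) := by
    have h1 : (2 : ℝ) ^ (1 / ε) / ε * (N : ℝ) ^ (-ε) * (1 / (d : ℝ)) ≤
        (2 : ℝ) ^ (1 / ε) / ε * 1 * (1 / (d : ℝ)) := by gcongr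
    linarith
  unfold Df
  have hC : |(∑ p ∈ (Icc 1 N).filter Nat.Prime, f p) / (Nat.totient d : ℝ)| ≤
      (1 + 75 * (2 / e0)) * y * ((1 + (2 : ℝ) ^ (1 / ε) / ε) * (1 / d)) := by
    rw [div_eq_mul_one_div, abs_mul, abs_of_nonneg (by positivity : (0:ℝ) ≤ 1 / (Nat.totient d : ℝ))]
    exact mul_le_mul hB hφ (by positivity) (by positivity)
  refine (abs_sub _ _).trans ?_
  rw [← hy]
  calc _ ≤ (1 + 75 * (2 / e0)) * (y / d) +
        (1 + 75 * (2 / e0)) * y * ((1 + (2 : ℝ) ^ (1 / ε) / ε) * (1 / d)) := add_le_add hA hC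
    _ = _ := by ring

end Pool.Agent.W109
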