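import Pool.Agent.W109.Bk2

/-!
The Bessel inequality in `ℓ²` over the residues and the moduli: one coarse block, all moduli.
-/

set_option autoImplicit false

namespace Pool.Agent.W109

open Finset
open Pool.Agent.H442R2.KF
open Pool.Agent.H442R2.BX

/-- numbers only -/
lemma num2 {x L y e0 K C1 C2 C3 n1 n2 η Fs lz G O E Y M c : ℝ} (hx : 2 ≤ x)
    (hL : L = Real.log x) (hy : y = x / L) (he0 : 0 < e0) (hK : 0 < K) (hC1 : 0 < C1)
    (hC2 : 0 < C2) (hC3 : 0 < C3) (hn1 : 0 < n1) (hn2 : 0 < n2) (hη1 : η ≤ n1 / 4)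
    (hη2 : η ≤ n2 / 2) (hc : 0 ≤ c) (hlz : e0 / 2 * L ≤ lz) (hFs : Fs ≤ 75 * (x / lz))
    (hFs0 : 0 ≤ Fs) (hM : 0 ≤ M) (hG : G ≤ C2 * (x / lz) * (M / (K * y) ^ 2))
    (hO : O = C1 * x ^ (1 - n1)) (hE0 : 0 ≤ E) (hE : E ≤ 3 * C3 * x ^ (1 - n2))
    (hY : |M / (K * y) - Y| ≤ c * E) (hYsq : Y ^ 2 ≤ 25 * Fs * (G + c ^ 2 * O)) :
    M ≤ (2 * (25 * 75 * (2 / e0) ^ 2 * C2) + 1 + K ^ 2 * (2 * (25 * 75 * (2 / e0)) *
      (C1 * (2 / n1)) + 2 * (3 * C3 * (2 / n2)) ^ 2)) * y ^ 2 * (1 + c * x ^ (-η)) := by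
  have hx0 : 0 < x := by linarith
  have hx1 : 1 ≤ x := by linarith
  have hL0 : 0 < L := by
    rw [hL]
    exact Real.log_pos (by linarith)
  have hy0 : 0 < y := by rw [hy]; exact div_pos hx0 hL0
  have hlz0 : 0 < lz := lt_of_lt_of_le (by positivity) hlz
  obtain ⟨k, hk⟩ : ∃ k : ℝ, k = 2 / e0 := ⟨_, rfl⟩
  have hk0 : 0 < k := by rw [hk]; positivity
  have h1 : x / lz ≤ k * y := by
    rw [hy, hk, div_le_iff₀ hlz0]
    calc x = 2 / e0 * (x / L) * (e0 / 2 * L) := by field_simp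
      _ ≤ 2 / e0 * (x / L) * lz := by gcongr
  obtain ⟨u, hu⟩ : ∃ u : ℝ, u = x ^ (-η) := ⟨_, rfl⟩
  have hu0 : 0 < u := by rw [hu]; exact Real.rpow_pos_of_pos hx0 _
  have hO1 : O ≤ C1 * (2 / n1) * y * u ^ 2 := by
    rw [hO]
    have h2 := TaskBK.pw hx hn1
    rw [← hL, ← hy] at h2
    have h3 : x ^ (-(n1 / 2)) ≤ u ^ 2 := by
      rw [hu, ← Real.rpow_natCast, ← Real.rpow_mul hx0.le]
      apply Real.rpow_le_rpow_of_exponent_le hx1
      push_cast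
      linarith
    calc C1 * x ^ (1 - n1) ≤ C1 * (2 / n1 * y * x ^ (-(n1 / 2))) := by gcongr
      _ ≤ C1 * (2 / n1 * y * u ^ 2) := by gcongr
      _ = _ := by ring
  have hE1 : E ≤ 3 * C3 * (2 / n2) * y * u := by
    have h2 := TaskBK.pw hx hn2
    rw [← hL, ← hy] at h2
    have h3 : x ^ (-(n2 / 2)) ≤ u := by
      rw [hu]
      exact Real.rpow_le_rpow_of_exponent_le hx1 (by linarith)
    calc E ≤ 3 * C3 * x ^ (1 - n2) := hE
      _ ≤ 3 * C3 * (2 / n2 * y * x ^ (-(n2 / 2))) := by gcongr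
      _ ≤ 3 * C3 * (2 / n2 * y * u) := by gcongr
      _ = _ := by ring
  obtain ⟨o, ho⟩ : ∃ o : ℝ, o = C1 * (2 / n1) := ⟨_, rfl⟩
  have ho0 : 0 < o := by rw [ho]; positivity
  obtain ⟨R, hR⟩ : ∃ R : ℝ, R = 3 * C3 * (2 / n2) := ⟨_, rfl⟩
  have hR0 : 0 < R := by rw [hR]; positivity
  rw [← ho] at hO1 ⊢
  rw [← hR] at hE1 ⊢
  rw [← hk]
  have hKy : 0 < K * y := by positivity
  have hO0 : 0 ≤ O := by rw [hO]; positivity
  -- bound of `Y ^ 2`
  have hY2 : Y ^ 2 ≤ 25 * 75 * k ^ 2 * C2 / K ^ 2 * M + 25 * 75 * k * o * c ^ 2 * y ^ 2 * u ^ 2 := by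
    have g1 : G ≤ C2 * (k * y) * (M / (K * y) ^ 2) := by
      refine hG.trans ?_
      gcongr
    have g2 : 0 ≤ C2 * (k * y) * (M / (K * y) ^ 2) := by positivity
    have g3 : Fs ≤ 75 * (k * y) := by
      refine hFs.trans ?_
      gcongr
    calc Y ^ 2 ≤ 25 * Fs * (G + c ^ 2 * O) := hYsq
      _ ≤ 25 * Fs * (C2 * (k * y) * (M / (K * y) ^ 2) + c ^ 2 * (o * y * u ^ 2)) := by
          gcongr
      _ ≤ 25 * (75 * (k * y)) * (C2 * (k * y) * (M / (K * y) ^ 2) + c ^ 2 * (o * y * u ^ 2)) := by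
          gcongr
      _ = _ := by
          field_simp
  have hM1 : (M / (K * y)) ^ 2 ≤ 2 * Y ^ 2 + 2 * (c * (R * y * u)) ^ 2 := by
    have a1 : |M / (K * y)| ≤ |Y| + c * (R * y * u) := by
      have a2 : |M / (K * y)| ≤ |M / (K * y) - Y| + |Y| := by
        have := abs_add_le (M / (K * y) - Y) Y
        rwa [sub_add_cancel] at this
      have a3 : c * E ≤ c * (R * y * u) := by gcongr
      linarith
    have a4 : 0 ≤ c * (R * y * u) := by positivity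
    have a5 := pow_le_pow_left₀ (abs_nonneg _) a1 2
    rw [sq_abs] at a5
    refine a5.trans ?_
    exact TaskBK.two_sq _ _
  have hM2 : M ^ 2 ≤ 2 * (25 * 75 * k ^ 2 * C2) * y ^ 2 * M +
      K ^ 2 * (2 * (25 * 75 * k) * o + 2 * R ^ 2) * (y ^ 2 * c * u) ^ 2 := by
    have b1 : M ^ 2 = (K * y) ^ 2 * (M / (K * y)) ^ 2 := by
      field_simp
    rw [b1]
    calc (K * y) ^ 2 * (M / (K * y)) ^ 2 ≤ (K * y) ^ 2 * (2 * Y ^ 2 + 2 * (c * (R * y * u)) ^ 2) := by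
          gcongr
      _ ≤ (K * y) ^ 2 * (2 * (25 * 75 * k ^ 2 * C2 / K ^ 2 * M +
            25 * 75 * k * o * c ^ 2 * y ^ 2 * u ^ 2) + 2 * (c * (R * y * u)) ^ 2) := by
          gcongr
      _ = _ := by
          field_simp
          ring
  obtain ⟨P, hP⟩ : ∃ P : ℝ, P = 2 * (25 * 75 * k ^ 2 * C2) := ⟨_, rfl⟩
  have hP0 : 0 < P := by rw [hP]; positivity
  obtain ⟨W, hW⟩ : ∃ W : ℝ, W = K ^ 2 * (2 * (25 * 75 * k) * o + 2 * R ^ 2) := ⟨_, rfl⟩
  have hW0 : 0 < W := by rw [hW]; positivity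
  rw [← hP, ← hW] at hM2 ⊢
  rw [← hu]
  obtain ⟨s, hs⟩ : ∃ s : ℝ, s = y ^ 2 * c * u := ⟨_, rfl⟩
  have hs0 : 0 ≤ s := by rw [hs]; positivity
  rw [← hs] at hM2
  have hfin : M ≤ P * y ^ 2 + (1 + W) * s := by
    by_contra hcon
    push Not at hcon
    have c1 : (1 + W) * s < M - P * y ^ 2 := by linarith
    have c0 : 0 ≤ (1 + W) * s := by positivity
    have c2 : (1 + W) * s < M := by
      have : 0 ≤ P * y ^ 2 := by positivity
      linarith
    have c3 : ((1 + W) * s) * ((1 + W) * s) < M * (M - P * y ^ 2) :=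
      mul_lt_mul'' c2 c1 c0 c0
    have c4 : W * s ^ 2 ≤ ((1 + W) * s) * ((1 + W) * s) := by
      have : ((1 + W) * s) * ((1 + W) * s) = (1 + W) ^ 2 * s ^ 2 := by ring
      rw [this]
      apply mul_le_mul_of_nonneg_right _ (sq_nonneg _)
      nlinarith
    have c5 : M * (M - P * y ^ 2) = M ^ 2 - P * y ^ 2 * M := by ring
    linarith
  calc M ≤ P * y ^ 2 + (1 + W) * s := hfin
    _ ≤ P * y ^ 2 + (1 + W) * s + ((1 + W) * y ^ 2 + P * s) := by
        have : 0 ≤ (1 + W) * y ^ 2 + P * s := by positivity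
        linarith
    _ = _ := by rw [hs]; ring

/-- one coarse block -/
theorem BK2 (hTT : St_TT) (hRC : St_RC) (hRA : St_RA) (hGS : St_GS) (hPB : St_PB) (hRT : St_RT)
    (hWX : St_WX) (hGW : St_GW) (hSM : St_SM) (hEX : St_EX) :
    ∀ θ ε : ℝ, θ < 14 / 27 → 0 < ε → ∃ (ε₀ η C : ℝ), 0 < ε₀ ∧ 0 < η ∧ 0 < C ∧
    ∀ (N D0 X : ℕ), 2 ≤ N → (X : ℝ) ≤ (N : ℝ) ^ θ → 1 ≤ D0 → (X : ℝ) ≤ (N : ℝ) ^ ε₀ * D0 →
    ∀ f : ℕ → ℝ, (∀ p, |f p| ≤ 1) → ∀ A : Finset ℤ, (∀ a ∈ A, |(a : ℝ)| ≤ N) →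
    ∀ T : ℤ → Finset ℕ, (∀ a ∈ A, ∀ d ∈ T a, D0 < d ∧ d ≤ X ∧ Rough ((N : ℝ) ^ ε) d) →
    ∑ a ∈ A, ∑ d ∈ T a, (d : ℝ) * Df f N a d ^ 2 ≤
      C * (N / Real.log N) ^ 2 * (1 + A.card * (N : ℝ) ^ (-η)) := by
  classical
  intro θ ε hθ hε
  obtain ⟨e1, n1, C1, he1, hn1, hC1, tt⟩ := hTT θ ε hθ hε
  obtain ⟨N2, C2, hC2, di⟩ := DI2 hRC hRA hGS hGW hSM ε hε
  obtain ⟨N3, C3, hC3, pr⟩ := PR2 hPB hRT ε hε
  obtain ⟨e0, he0, he01, he04, he0ε⟩ : ∃ e0 : ℝ, 0 < e0 ∧ e0 ≤ e1 ∧ e0 ≤ 1 / 6 ∧ e0 ≤ ε :=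
    ⟨min e1 (min (1 / 6) ε), lt_min he1 (lt_min (by norm_num) hε), min_le_left _ _,
      (min_le_right _ _).trans (min_le_left _ _), (min_le_right _ _).trans (min_le_right _ _)⟩
  obtain ⟨N6, K, hK, bt⟩ := bt_df hSM hGW ε e0 hε he0
  obtain ⟨N4, gw⟩ := hGW
  obtain ⟨n2, hn2, hn24, hn2e⟩ : ∃ n2 : ℝ, 0 < n2 ∧ n2 ≤ 1 / 4 ∧ n2 ≤ ε / 2 :=
    ⟨min (1 / 4) (ε / 2), lt_min (by norm_num) (by linarith), min_le_left _ _, min_le_right _ _⟩
  obtain ⟨η, hη, hη1, hη2⟩ : ∃ η : ℝ, 0 < η ∧ η ≤ n1 / 4 ∧ η ≤ n2 / 2 :=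
    ⟨min (n1 / 4) (n2 / 2), lt_min (by linarith) (by linarith), min_le_left _ _, min_le_right _ _⟩
  obtain ⟨N5, hN5⟩ : ∃ N5 : ℕ, ∀ N : ℕ, N5 ≤ N → (2 : ℝ) ≤ (N : ℝ) ^ (e0 / 2) := by
    have := ((tendsto_rpow_atTop (half_pos he0)).comp
      (tendsto_natCast_atTop_atTop (R := ℝ))).eventually_ge_atTop 2
    exact Filter.eventually_atTop.1 this
  obtain ⟨Cb, hCbe⟩ : ∃ Cb : ℝ, Cb = (2 * (25 * 75 * (2 / e0) ^ 2 * C2) + 1 +
      K ^ 2 * (2 * (25 * 75 * (2 / e0)) * (C1 * (2 / n1)) + 2 * (3 * C3 * (2 / n2)) ^ 2)) :=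
    ⟨_, rfl⟩
  have hCb : 0 < Cb := by rw [hCbe]; positivity
  obtain ⟨M, hM⟩ : ∃ M : ℕ, M = N2 + N3 + N4 + N5 + N6 + 2 := ⟨_, rfl⟩
  refine ⟨e0, η, Cb + 4 * (M : ℝ) ^ 5, he0, hη, by positivity, ?_⟩
  intro N D0 X hN hXθ hD0 hXD f hf A hA T hT
  have hNr : (2 : ℝ) ≤ N := by exact_mod_cast hN
  have hN0 : (0 : ℝ) < N := by linarith
  have hN1 : (1 : ℝ) ≤ N := by linarith
  have hX14 : (X : ℝ) ≤ (N : ℝ) ^ (14 / 27 : ℝ) :=
    hXθ.trans (Real.rpow_le_rpow_of_exponent_le hN1 hθ.le)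
  have hXN' : (X : ℝ) ≤ (N : ℝ) ^ (3 / 4 : ℝ) :=
    hXθ.trans (Real.rpow_le_rpow_of_exponent_le hN1 (by linarith))
  have hXN : X ≤ N := by
    have : (X : ℝ) ≤ N := hXN'.trans (by
      calc (N : ℝ) ^ (3 / 4 : ℝ) ≤ (N : ℝ) ^ (1 : ℝ) :=
            Real.rpow_le_rpow_of_exponent_le hN1 (by norm_num)
        _ = N := Real.rpow_one _)
    exact_mod_cast this
  rcases lt_or_ge N M with hNM | hNM
  · refine TaskBK.num0 hNr rfl (by linarith) (Nat.cast_nonneg _) (by exact_mod_cast hNM.le) ?_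
      hCb.le
    calc ∑ a ∈ A, ∑ d ∈ T a, (d : ℝ) * Df f N a d ^ 2 ≤ ∑ a ∈ A, 4 * (N : ℝ) ^ 4 := by
          refine sum_le_sum fun a ha => ?_
          have hTN : T a ⊆ Icc 1 N := by
            intro d hd
            obtain ⟨h1, h2, -⟩ := hT a ha d hd
            rw [mem_Icc]
            omega
          calc ∑ d ∈ T a, (d : ℝ) * Df f N a d ^ 2
              ≤ ∑ d ∈ T a, (N : ℝ) * (4 * (N : ℝ) ^ 2) := by
                refine sum_le_sum fun d hd => ?_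
                have h1 := TaskBK.Df_triv hf N a d
                have h2 : Df f N a d ^ 2 ≤ 4 * (N : ℝ) ^ 2 := by
                  rw [← sq_abs]
                  calc |Df f N a d| ^ 2 ≤ (2 * (N : ℝ)) ^ 2 := pow_le_pow_left₀ (abs_nonneg _) h1 2
                    _ = _ := by ring
                have h3 : (d : ℝ) ≤ N := by
                  have := (mem_Icc.1 (hTN hd)).2
                  exact_mod_cast this
                exact mul_le_mul h3 h2 (sq_nonneg _) hN0.le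
            _ = (T a).card * ((N : ℝ) * (4 * (N : ℝ) ^ 2)) := by rw [sum_const, nsmul_eq_mul]
            _ ≤ N * ((N : ℝ) * (4 * (N : ℝ) ^ 2)) := by
                have h4 : ((T a).card : ℝ) ≤ N := by
                  have := card_le_card hTN
                  rw [Nat.card_Icc] at this
                  exact_mod_cast (by omega : (T a).card ≤ N)
                gcongr
            _ = 4 * (N : ℝ) ^ 4 := by ring
      _ = A.card * (4 * (N : ℝ) ^ 4) := by rw [sum_const, nsmul_eq_mul]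
  · have hL0 : 0 < Real.log N := Real.log_pos (by linarith)
    have hg2 : (2 : ℝ) ≤ (N : ℝ) ^ (e0 / 2) := hN5 N (by omega)
    obtain ⟨g, hg⟩ : ∃ g : ℝ, g = (N : ℝ) ^ (e0 / 2) := ⟨_, rfl⟩
    rw [← hg] at hg2
    have hgg : (N : ℝ) ^ e0 = g * g := by
      rw [hg, ← Real.rpow_add hN0]
      congr 1
      ring
    obtain ⟨z, hz⟩ : ∃ z : ℕ, z = ⌊(N : ℝ) ^ e0⌋₊ := ⟨_, rfl⟩
    have hz1 : (z : ℝ) ≤ (N : ℝ) ^ e0 := by
      rw [hz]
      exact Nat.floor_le (Real.rpow_nonneg hN0.le _)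
    have hz2 : (N : ℝ) ^ e0 < z + 1 := by
      rw [hz]
      exact Nat.lt_floor_add_one _
    have hgz : g ≤ z := by
      rw [hgg] at hz2
      nlinarith
    have hz3 : 2 ≤ z := by
      have : (2 : ℝ) ≤ z := hg2.trans hgz
      exact_mod_cast this
    have hz6 : (z : ℝ) ≤ (N : ℝ) ^ (1 / 6 : ℝ) :=
      hz1.trans (Real.rpow_le_rpow_of_exponent_le hN1 he04)
    have hz4 : (z : ℝ) ≤ (N : ℝ) ^ (1 / 4 : ℝ) :=
      hz6.trans (Real.rpow_le_rpow_of_exponent_le hN1 (by norm_num))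
    have hz5 : (z : ℝ) ≤ (N : ℝ) ^ e1 := hz1.trans (Real.rpow_le_rpow_of_exponent_le hN1 he01)
    have hzε : (z : ℝ) ≤ (N : ℝ) ^ ε := hz1.trans (Real.rpow_le_rpow_of_exponent_le hN1 he0ε)
    have hzX : (z : ℝ) * z * X ≤ (N : ℝ) ^ (9 / 10 : ℝ) := by
      calc (z : ℝ) * z * X ≤ (N : ℝ) ^ (1 / 6 : ℝ) * (N : ℝ) ^ (1 / 6 : ℝ) *
            (N : ℝ) ^ (14 / 27 : ℝ) := by gcongr
        _ = (N : ℝ) ^ (1 / 6 + 1 / 6 + 14 / 27 : ℝ) := by
            rw [← Real.rpow_add hN0, ← Real.rpow_add hN0]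
        _ ≤ _ := Real.rpow_le_rpow_of_exponent_le hN1 (by norm_num)
    have hlz : e0 / 2 * Real.log N ≤ Real.log z := by
      rw [← Real.log_rpow hN0, ← hg]
      exact Real.log_le_log (by linarith) hgz
    have hlz0 : 0 < Real.log z := lt_of_lt_of_le (by positivity) hlz
    have hXD' : (X : ℝ) ≤ (N : ℝ) ^ e1 * D0 := by
      refine hXD.trans ?_
      have := Real.rpow_le_rpow_of_exponent_le hN1 he01
      gcongr
    obtain ⟨lam, hlam⟩ := hWX z hz3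
    obtain ⟨y, hy⟩ : ∃ y : ℝ, y = N / Real.log N := ⟨_, rfl⟩
    have hy0 : 0 < y := by rw [hy]; positivity
    -- the coefficients
    obtain ⟨c, hcd⟩ : ∃ c : ℤ → ℕ → ℝ, ∀ a d, c a d =
      if d ∈ T a then (d : ℝ) * Df f N a d / (K * y) else 0 := ⟨_, fun _ _ => rfl⟩
    have hbt : ∀ a ∈ A, ∀ d ∈ T a, |Df f N a d| ≤ K * y / d := by
      intro a ha d hd
      obtain ⟨h1, h2, h3⟩ := hT a ha d hd
      have hdX : (d : ℝ) ≤ X := by exact_mod_cast h2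
      rw [hy]
      refine bt N z d (by omega) hz3 (by omega) (h2.trans hXN) hz4 (hdX.trans hX14) ?_ hzε hlz lam
        hlam h3 f hf a
      refine le_trans ?_ hzX
      gcongr
    have hcof : ∀ a ∈ A, CofR ((N : ℝ) ^ ε) X (c a) := by
      intro a ha
      constructor
      · intro d
        rw [hcd]
        split_ifs with hd
        · have h1 := hbt a ha d hd
          have hd0 : (0 : ℝ) < d := by
            have := (hT a ha d hd).1
            exact_mod_cast (by omega : 0 < d)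
          rw [abs_div, abs_mul, abs_of_pos hd0, abs_of_pos (by positivity : 0 < K * y),
            div_le_one (by positivity)]
          rw [le_div_iff₀ hd0] at h1
          linarith
        · simp
      · intro d hd
        rw [hcd] at hd
        have : d ∈ T a := by
          by_contra h
          rw [if_neg h] at hd
          exact hd rfl
        exact ⟨(hT a ha d this).2.1, (hT a ha d this).2.2⟩
    have hsub : ∀ a ∈ A, T a ⊆ Icc 1 X := by
      intro a ha d hd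
      rw [mem_Icc]
      have := hT a ha d hd
      omega
    have hsum1 : ∀ a ∈ A, ∑ d ∈ Icc 1 X, c a d * Df f N a d =
        (∑ d ∈ T a, (d : ℝ) * Df f N a d ^ 2) / (K * y) := by
      intro a ha
      rw [← sum_subset (hsub a ha) (fun d _ hd => by rw [hcd, if_neg hd, zero_mul]), sum_div]
      refine sum_congr rfl fun d hd => ?_
      rw [hcd, if_pos hd]
      ring
    have hsum2 : ∀ a ∈ A, ∑ d ∈ Icc 1 X, c a d ^ 2 / d =
        (∑ d ∈ T a, (d : ℝ) * Df f N a d ^ 2) / (K * y) ^ 2 := by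
      intro a ha
      rw [← sum_subset (hsub a ha) (fun d _ hd => by rw [hcd, if_neg hd]; simp), sum_div]
      refine sum_congr rfl fun d hd => ?_
      rw [hcd, if_pos hd]
      have hd0 : (0 : ℝ) < d := by
        have := (hT a ha d hd).1
        exact_mod_cast (by omega : 0 < d)
      field_simp
    obtain ⟨Sp, hSp⟩ : ∃ Sp : Finset ℕ, Sp = (Icc 1 N).filter (fun p => p.Prime ∧ z < p) :=
      ⟨_, rfl⟩
    obtain ⟨Q, hQ⟩ : ∃ Q : ℝ, Q = ∑ a ∈ A, ∑ d ∈ T a, (d : ℝ) * Df f N a d ^ 2 := ⟨_, rfl⟩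
    have hQ0 : 0 ≤ Q := by
      rw [hQ]
      exact sum_nonneg fun a _ => sum_nonneg fun d _ => by positivity
    obtain ⟨Y, hY⟩ : ∃ Y : ℝ, Y = ∑ a ∈ A, ∑ p ∈ Sp, f p * rf (c a) X a p := ⟨_, rfl⟩
    obtain ⟨E, hE⟩ : ∃ E : ℝ, E = C3 * (z + X + (N : ℝ) ^ (1 - ε / 2)) := ⟨_, rfl⟩
    have hE0 : 0 ≤ E := by rw [hE]; positivity
    have hYQ : |Q / (K * y) - Y| ≤ A.card * E := by
      have h1 : Q / (K * y) - Y = ∑ a ∈ A, (∑ d ∈ Icc 1 X, c a d * Df f N a d -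
          ∑ p ∈ Sp, f p * rf (c a) X a p) := by
        rw [sum_sub_distrib, hQ, hY, sum_div]
        congr 1
        exact sum_congr rfl fun a ha => (hsum1 a ha).symm
      rw [h1]
      refine (abs_sum_le_sum_abs _ _).trans ?_
      rw [← nsmul_eq_mul]
      refine sum_le_card_nsmul _ _ _ fun a ha => ?_
      rw [hSp, hE]
      exact pr N z X (by omega) hXN f hf a (hA a ha) (c a) (hcof a ha)
    have hw25 : ∀ p ∈ Sp, (1 : ℝ) ≤ 25 * (fun n : ℤ => Wt N n * nuS lam z n) p := by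
      intro p hp
      rw [hSp, mem_filter, mem_Icc] at hp
      exact TaskBK.w_prime hlam (by omega) hp.2.1 hp.2.2 hp.1.2
    have hO0 : 0 ≤ C1 * (N : ℝ) ^ (1 - n1) := by positivity
    have hdu := dual2 (fun n : ℤ => Wt N n * nuS lam z n) (fun n => TaskBK.w_nonneg N z lam n)
      Sp hw25 A (fun a n => rf (c a) X a n) f
      (fun a _ a' _ => (hEX N z X (by omega) lam (c a) (c a') a a').2.1)
      (fun a => C2 * (N / Real.log z) * ∑ d ∈ Icc 1 X, c a d ^ 2 / d)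
      (C1 * (N : ℝ) ^ (1 - n1))
      (fun a ha => di N z X (by omega) hXN hz3 hz4 hzX hzε lam hlam (c a) (hcof a ha) a (hA a ha))
      hO0
      (fun a ha a' ha' haa => tt N z D0 X hN (by omega) hz5 hXθ hD0 hXD' lam hlam (c a) (c a')
        (hcof a ha) (hcof a' ha')
        (fun d hd => by
          rw [hcd] at hd
          have : d ∈ T a := by
            by_contra h
            rw [if_neg h] at hd
            exact hd rfl
          exact (hT a ha d this).1)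
        (fun d hd => by
          rw [hcd] at hd
          have : d ∈ T a' := by
            by_contra h
            rw [if_neg h] at hd
            exact hd rfl
          exact (hT a' ha' d this).1) a a' (hA a ha) (hA a' ha') haa)
    have hG : ∑ a ∈ A, C2 * (N / Real.log z) * ∑ d ∈ Icc 1 X, c a d ^ 2 / d ≤
        C2 * (N / Real.log z) * (Q / (K * y) ^ 2) := by
      rw [← mul_sum]
      refine le_of_eq ?_
      congr 1
      rw [hQ, sum_div]
      exact sum_congr rfl fun a ha => hsum2 a ha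
    have hFs : ∑ p ∈ Sp, f p ^ 2 ≤ 75 * (N / Real.log z) := by
      have h1 := gw N z (by omega) hz3 hz4 lam hlam
      have h2 : ∑ p ∈ Sp, (Wt N (p : ℤ) * nuS lam z (p : ℤ)) ≤
          ∑' n : ℤ, Wt N n * nuS lam z n := by
        have h3 := (TaskBK.summ_w (by omega : 1 ≤ N) hlam).sum_le_tsum
          (Sp.map ⟨(fun p : ℕ => (p : ℤ)), Nat.cast_injective⟩)
          (fun n _ => TaskBK.w_nonneg N z lam n)
        rw [sum_map] at h3
        exact h3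
      calc ∑ p ∈ Sp, f p ^ 2
          ≤ ∑ p ∈ Sp, 25 * (Wt N (p : ℤ) * nuS lam z (p : ℤ)) := by
            refine sum_le_sum fun p hp => le_trans ?_ (hw25 p hp)
            rw [← sq_abs]
            exact pow_le_one₀ (abs_nonneg _) (hf p)
        _ = 25 * ∑ p ∈ Sp, (Wt N (p : ℤ) * nuS lam z (p : ℤ)) := by rw [mul_sum]
        _ ≤ 25 * (3 * N / Real.log z) := by
            have := h2.trans h1
            linarith
        _ = 75 * (N / Real.log z) := by ring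
    have hE1 : E ≤ 3 * C3 * (N : ℝ) ^ (1 - n2) := by
      rw [hE]
      have h1 : (z : ℝ) ≤ (N : ℝ) ^ (1 - n2) :=
        hz4.trans (Real.rpow_le_rpow_of_exponent_le hN1 (by linarith))
      have h2 : (X : ℝ) ≤ (N : ℝ) ^ (1 - n2) :=
        hXN'.trans (Real.rpow_le_rpow_of_exponent_le hN1 (by linarith))
      have h3 : (N : ℝ) ^ (1 - ε / 2) ≤ (N : ℝ) ^ (1 - n2) :=
        Real.rpow_le_rpow_of_exponent_le hN1 (by linarith)
      nlinarith
    have hYsq : Y ^ 2 ≤ 25 * (∑ p ∈ Sp, f p ^ 2) *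
        (∑ a ∈ A, C2 * (N / Real.log z) * ∑ d ∈ Icc 1 X, c a d ^ 2 / d +
          (A.card : ℝ) ^ 2 * (C1 * (N : ℝ) ^ (1 - n1))) := by
      rw [hY]
      exact hdu
    have hfin := num2 hNr rfl hy he0 hK hC1 hC2 hC3 hn1 hn2 hη1 hη2
      (Nat.cast_nonneg A.card) hlz hFs (sum_nonneg fun p _ => sq_nonneg _) hQ0 hG rfl hE0 hE1
      hYQ hYsq
    rw [← hCbe] at hfin
    rw [← hQ]
    refine hfin.trans ?_
    rw [← hy]
    have hpos : (0 : ℝ) ≤ y ^ 2 * (1 + A.card * (N : ℝ) ^ (-η)) := by positivity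
    have hM5 : (0 : ℝ) ≤ 4 * (M : ℝ) ^ 5 := by positivity
    exact TaskBK.add_le hM5 hpos

end Pool.Agent.W109
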