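import Pool.Agent.W109.Fin

/-!
Consequences of the `ℓ²` Bessel inequality: few exceptional pairs, maximum over the residues inside
the sum over the moduli.
-/

set_option autoImplicit false

namespace Pool.Agent.W109

open Finset
open Pool.Agent.H442R2.KF
open Pool.Agent.H442R2.BX

/-- the sum of `1/φ(d)` over rough numbers is bounded -/
lemma sum_inv_phi (ε : ℝ) (hε : 0 < ε) : ∃ C : ℝ, 1 ≤ C ∧ ∀ N : ℕ, 2 ≤ N →
    ∑ d ∈ roughs ((N : ℝ) ^ ε) N, 1 / (Nat.totient d : ℝ) ≤ C := by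
  obtain ⟨C₁, hC₁, h1⟩ := RA ε hε
  obtain ⟨C₂, hC₂, h2⟩ := RT ε hε
  refine ⟨C₁ + C₂ + 1, by linarith, fun N hN => ?_⟩
  have h3 := h1 N hN
  have h4 := h2 N hN
  rw [sum_sub_distrib] at h4
  have hN1 : (1 : ℝ) ≤ N := by exact_mod_cast (by omega : 1 ≤ N)
  have h5 : (N : ℝ) ^ (-(ε / 2)) ≤ 1 := Real.rpow_le_one_of_one_le_of_nonpos hN1 (by linarith)
  have h6 : C₂ * (N : ℝ) ^ (-(ε / 2)) ≤ C₂ := by nlinarith
  linarith

/-- the `ℓ²` inequality, sum over the moduli outside -/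
theorem L2 : ∀ θ ε : ℝ, θ < 14 / 27 → 0 < ε → ∃ (η C : ℝ), 0 < η ∧ 0 < C ∧
    ∀ N : ℕ, 2 ≤ N → ∀ f : ℕ → ℝ, (∀ p, |f p| ≤ 1) → ∀ A : Finset ℤ, (∀ a ∈ A, |(a : ℝ)| ≤ N) →
    ∑ d ∈ roughs ((N : ℝ) ^ ε) ⌊(N : ℝ) ^ θ⌋₊, ∑ a ∈ A.filter (fun a : ℤ => Int.gcd a d = 1),
      (Nat.totient d : ℝ) * Df f N a d ^ 2 ≤
      C * (N / Real.log N) ^ 2 * (1 + A.card * (N : ℝ) ^ (-η)) := by
  intro θ ε hθ hε
  obtain ⟨η, C, hη, hC, h⟩ := FI2 θ ε hθ hε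
  refine ⟨η, C, hη, hC, fun N hN f hf A hA => ?_⟩
  have hN0 : (0 : ℝ) ≤ N := Nat.cast_nonneg _
  have h1 := h N hN f hf A hA (fun a => (roughs ((N : ℝ) ^ ε) ⌊(N : ℝ) ^ θ⌋₊).filter
    (fun d : ℕ => Int.gcd a d = 1)) (by
      intro a _ d hd
      rw [mem_filter, mem_roughs] at hd
      exact ⟨(Nat.cast_le.2 hd.1.1.2).trans (Nat.floor_le (by positivity)), hd.1.2⟩)
  refine le_trans ?_ h1
  have h2 : ∀ d ∈ roughs ((N : ℝ) ^ ε) ⌊(N : ℝ) ^ θ⌋₊,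
      ∑ a ∈ A.filter (fun a : ℤ => Int.gcd a d = 1), (Nat.totient d : ℝ) * Df f N a d ^ 2 =
      ∑ a ∈ A, if Int.gcd a d = 1 then (Nat.totient d : ℝ) * Df f N a d ^ 2 else 0 := by
    intro d _
    rw [sum_filter]
  rw [sum_congr rfl h2, sum_comm]
  refine sum_le_sum fun a _ => ?_
  rw [sum_filter]
  refine sum_le_sum fun d _ => ?_
  split_ifs with hg
  · have h3 : (Nat.totient d : ℝ) ≤ d := by exact_mod_cast Nat.totient_le d
    exact mul_le_mul_of_nonneg_right h3 (sq_nonneg _)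
  · exact le_refl _

/-- few exceptional pairs -/
theorem PR3 : ∀ θ ε : ℝ, θ < 14 / 27 → 0 < ε → ∃ (η C : ℝ), 0 < η ∧ 0 < C ∧
    ∀ N : ℕ, 2 ≤ N → ∀ f : ℕ → ℝ, (∀ p, |f p| ≤ 1) → ∀ A : Finset ℤ, (∀ a ∈ A, |(a : ℝ)| ≤ N) →
    ∀ κ : ℝ, 0 < κ →
    ∑ d ∈ roughs ((N : ℝ) ^ ε) ⌊(N : ℝ) ^ θ⌋₊,
      ((A.filter (fun a : ℤ => Int.gcd a d = 1 ∧
        κ * (N / Real.log N) / (Nat.totient d : ℝ) < |Df f N a d|)).card : ℝ) /
          (Nat.totient d : ℝ) ≤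
      C / κ ^ 2 * (1 + A.card * (N : ℝ) ^ (-η)) := by
  intro θ ε hθ hε
  obtain ⟨η, C, hη, hC, h⟩ := L2 θ ε hθ hε
  refine ⟨η, C, hη, hC, fun N hN f hf A hA κ hκ => ?_⟩
  have h1 := h N hN f hf A hA
  have hN1 : (1 : ℝ) < N := by exact_mod_cast (by omega : 1 < N)
  have hL : 0 < Real.log N := Real.log_pos hN1
  obtain ⟨y, hy⟩ : ∃ y : ℝ, y = N / Real.log N := ⟨_, rfl⟩
  have hy0 : 0 < y := by rw [hy]; positivity
  rw [← hy] at h1 ⊢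
  obtain ⟨B, hB⟩ : ∃ B : ℝ, B = 1 + A.card * (N : ℝ) ^ (-η) := ⟨_, rfl⟩
  rw [← hB] at h1 ⊢
  have h2 : ∀ d ∈ roughs ((N : ℝ) ^ ε) ⌊(N : ℝ) ^ θ⌋₊,
      (κ * y) ^ 2 * (((A.filter (fun a : ℤ => Int.gcd a d = 1 ∧
        κ * y / (Nat.totient d : ℝ) < |Df f N a d|)).card : ℝ) / (Nat.totient d : ℝ)) ≤
      ∑ a ∈ A.filter (fun a : ℤ => Int.gcd a d = 1), (Nat.totient d : ℝ) * Df f N a d ^ 2 := by
    intro d hd
    rw [mem_roughs] at hd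
    have hφ : (0 : ℝ) < Nat.totient d := by exact_mod_cast Nat.totient_pos.2 (by omega)
    calc (κ * y) ^ 2 * (((A.filter (fun a : ℤ => Int.gcd a d = 1 ∧
          κ * y / (Nat.totient d : ℝ) < |Df f N a d|)).card : ℝ) / (Nat.totient d : ℝ))
        = ∑ a ∈ A.filter (fun a : ℤ => Int.gcd a d = 1 ∧
          κ * y / (Nat.totient d : ℝ) < |Df f N a d|), (κ * y) ^ 2 / (Nat.totient d : ℝ) := by
          rw [sum_const, nsmul_eq_mul]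
          ring
      _ ≤ ∑ a ∈ A.filter (fun a : ℤ => Int.gcd a d = 1 ∧
          κ * y / (Nat.totient d : ℝ) < |Df f N a d|), (Nat.totient d : ℝ) * Df f N a d ^ 2 := by
          refine sum_le_sum fun a ha => ?_
          rw [mem_filter] at ha
          have h3 : (κ * y / (Nat.totient d : ℝ)) ^ 2 ≤ Df f N a d ^ 2 := by
            rw [← sq_abs (Df f N a d)]
            exact pow_le_pow_left₀ (by positivity) ha.2.2.le 2
          calc (κ * y) ^ 2 / (Nat.totient d : ℝ)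
              = (Nat.totient d : ℝ) * (κ * y / (Nat.totient d : ℝ)) ^ 2 := by
                field_simp
            _ ≤ _ := mul_le_mul_of_nonneg_left h3 hφ.le
      _ ≤ _ := by
          refine sum_le_sum_of_subset_of_nonneg ?_ fun _ _ _ => by positivity
          intro a ha
          rw [mem_filter] at ha ⊢
          exact ⟨ha.1, ha.2.1⟩
  have h3 := (sum_le_sum h2).trans h1
  rw [← mul_sum] at h3
  have h4 : C / κ ^ 2 * B = C * y ^ 2 * B / (κ * y) ^ 2 := by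
    field_simp
  rw [h4, le_div_iff₀ (by positivity), mul_comm]
  exact h3

/-- maximum inside, few exceptional pairs -/
theorem MX : ∀ θ ε : ℝ, θ < 14 / 27 → 0 < ε → ∃ (η C : ℝ), 0 < η ∧ 0 < C ∧
    ∀ N : ℕ, 2 ≤ N → ∀ f : ℕ → ℝ, (∀ p, |f p| ≤ 1) → ∀ A : Finset ℤ, (∀ a ∈ A, |(a : ℝ)| ≤ N) →
    (A.card : ℝ) ≤ (N : ℝ) ^ η → ∀ κ : ℝ, 0 < κ → ∃ X : ℕ → Finset ℤ, (∀ d, X d ⊆ A) ∧
    ∑ d ∈ roughs ((N : ℝ) ^ ε) ⌊(N : ℝ) ^ θ⌋₊, ((X d).card : ℝ) / (Nat.totient d : ℝ) ≤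
      C / κ ^ 2 ∧
    (∀ d ∈ roughs ((N : ℝ) ^ ε) ⌊(N : ℝ) ^ θ⌋₊, ∀ a ∈ A, a ∉ X d → Int.gcd a d = 1 →
      |Df f N a d| ≤ κ * (N / Real.log N) / (Nat.totient d : ℝ)) ∧
    (∀ α : ℕ → ℤ, ∑ d ∈ (roughs ((N : ℝ) ^ ε) ⌊(N : ℝ) ^ θ⌋₊).filter
      (fun d : ℕ => α d ∈ A ∧ α d ∉ X d ∧ Int.gcd (α d) d = 1), |Df f N (α d) d| ≤
        κ * (N / Real.log N)) := by
  intro θ ε hθ hε
  obtain ⟨η, C, hη, hC, h⟩ := PR3 θ ε hθ hε
  obtain ⟨K, hK, hK1⟩ := sum_inv_phi ε hε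
  have hK0 : 0 < K := by linarith
  refine ⟨η, 2 * C * K ^ 2, hη, by positivity, fun N hN f hf A hA hAc κ hκ => ?_⟩
  have hN1 : (1 : ℝ) < N := by exact_mod_cast (by omega : 1 < N)
  have hN0 : (0 : ℝ) < N := by linarith
  have hL : 0 < Real.log N := Real.log_pos hN1
  have hκK : 0 < κ / K := by positivity
  have h1 := h N hN f hf A hA (κ / K) hκK
  obtain ⟨y, hy⟩ : ∃ y : ℝ, y = N / Real.log N := ⟨_, rfl⟩
  have hy0 : 0 < y := by rw [hy]; positivity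
  rw [← hy] at h1 ⊢
  have hA2 : (1 + A.card * (N : ℝ) ^ (-η)) ≤ 2 := by
    have h2 : (A.card : ℝ) * (N : ℝ) ^ (-η) ≤ (N : ℝ) ^ η * (N : ℝ) ^ (-η) := by gcongr
    rw [← Real.rpow_add hN0, add_neg_cancel, Real.rpow_zero] at h2
    linarith
  have hpt : ∀ d ∈ roughs ((N : ℝ) ^ ε) ⌊(N : ℝ) ^ θ⌋₊, ∀ a ∈ A,
      a ∉ A.filter (fun a : ℤ => Int.gcd a d = 1 ∧
        κ / K * y / (Nat.totient d : ℝ) < |Df f N a d|) → Int.gcd a d = 1 →
      |Df f N a d| ≤ κ / K * y / (Nat.totient d : ℝ) := by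
    intro d _ a ha hn hg
    by_contra hcon
    push Not at hcon
    exact hn (mem_filter.2 ⟨ha, hg, hcon⟩)
  refine ⟨fun d => A.filter (fun a : ℤ => Int.gcd a d = 1 ∧
        κ / K * y / (Nat.totient d : ℝ) < |Df f N a d|), fun d => filter_subset _ _, ?_, ?_, ?_⟩
  · refine h1.trans ?_
    calc C / (κ / K) ^ 2 * (1 + A.card * (N : ℝ) ^ (-η)) ≤ C / (κ / K) ^ 2 * 2 := by gcongr
      _ = 2 * C * K ^ 2 / κ ^ 2 := by field_simp
  · intro d hd a ha hn hg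
    refine (hpt d hd a ha hn hg).trans ?_
    have hφ : (0 : ℝ) < Nat.totient d := by
      rw [mem_roughs] at hd
      exact_mod_cast Nat.totient_pos.2 (by omega)
    have : κ / K ≤ κ := div_le_self hκ.le hK
    gcongr
  · intro α
    have hθ1 : ⌊(N : ℝ) ^ θ⌋₊ ≤ N := by
      apply Nat.floor_le_of_le
      calc (N : ℝ) ^ θ ≤ (N : ℝ) ^ (1 : ℝ) :=
            Real.rpow_le_rpow_of_exponent_le hN1.le (by linarith)
        _ = N := Real.rpow_one _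
    calc ∑ d ∈ (roughs ((N : ℝ) ^ ε) ⌊(N : ℝ) ^ θ⌋₊).filter
          (fun d : ℕ => α d ∈ A ∧ α d ∉ A.filter (fun a : ℤ => Int.gcd a d = 1 ∧
            κ / K * y / (Nat.totient d : ℝ) < |Df f N a d|) ∧ Int.gcd (α d) d = 1),
          |Df f N (α d) d|
        ≤ ∑ d ∈ (roughs ((N : ℝ) ^ ε) ⌊(N : ℝ) ^ θ⌋₊).filter
          (fun d : ℕ => α d ∈ A ∧ α d ∉ A.filter (fun a : ℤ => Int.gcd a d = 1 ∧
            κ / K * y / (Nat.totient d : ℝ) < |Df f N a d|) ∧ Int.gcd (α d) d = 1),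
          κ / K * y / (Nat.totient d : ℝ) := by
          refine sum_le_sum fun d hd => ?_
          rw [mem_filter] at hd
          exact hpt d hd.1 (α d) hd.2.1 hd.2.2.1 hd.2.2.2
      _ ≤ ∑ d ∈ roughs ((N : ℝ) ^ ε) N, κ / K * y / (Nat.totient d : ℝ) := by
          refine sum_le_sum_of_subset_of_nonneg ?_ fun _ _ _ => by positivity
          intro d hd
          exact roughs_mono _ hθ1 (mem_filter.1 hd).1
      _ = κ / K * y * ∑ d ∈ roughs ((N : ℝ) ^ ε) N, 1 / (Nat.totient d : ℝ) := by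
          rw [mul_sum]
          exact sum_congr rfl fun d _ => by ring
      _ ≤ κ / K * y * K := by
          gcongr
          exact hK1 N hN
      _ = κ * y := by field_simp

/-- the discrepancy of the primes -/
noncomputable def eprime (N : ℕ) (a : ℤ) (q : ℕ) : ℝ :=
  (((Icc 1 N).filter (fun p : ℕ => p.Prime ∧ (p : ℤ) ≡ a [ZMOD q])).card : ℝ) -
    (((Icc 1 N).filter Nat.Prime).card : ℝ) / ((q : ℝ) - 1)

lemma eprime_eq (N : ℕ) (a : ℤ) (q : ℕ) (hq : q.Prime) : eprime N a q = Df (fun _ => 1) N a q := by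
  unfold eprime Df
  rw [Nat.totient_prime hq, Nat.cast_sub hq.one_le]
  simp

/-- prime moduli -/
theorem PQ : ∀ θ : ℝ, θ < 14 / 27 → ∃ (η C : ℝ), 0 < η ∧ 0 < C ∧
    ∀ κ : ℝ, 0 < κ → ∃ N₀ : ℕ, ∀ N : ℕ, N₀ ≤ N → ∀ A : Finset ℤ, (∀ a ∈ A, |(a : ℝ)| ≤ N) →
    (A.card : ℝ) ≤ (N : ℝ) ^ η → ∃ X : ℕ → Finset ℤ, (∀ q, X q ⊆ A) ∧
    ∑ q ∈ (Icc 1 ⌊(N : ℝ) ^ θ⌋₊).filter Nat.Prime, ((X q).card : ℝ) / q ≤ C / κ ^ 2 ∧
    (∀ α : ℕ → ℤ, ∑ q ∈ (Icc 1 ⌊(N : ℝ) ^ θ⌋₊).filter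
      (fun q : ℕ => q.Prime ∧ α q ∈ A ∧ α q ∉ X q ∧ ¬ (q : ℤ) ∣ α q), |eprime N (α q) q| ≤
        κ * (N / Real.log N)) := by
  intro θ hθ
  obtain ⟨η, C, hη, hC, h⟩ := MX θ (2 / 5) hθ (by norm_num)
  obtain ⟨C₁, hC₁, h1⟩ := bv (2 / 5) (by norm_num) 2
  refine ⟨η, 4 * C, hη, by positivity, fun κ hκ => ?_⟩
  have hlim1 : Filter.Tendsto (fun N : ℕ => Real.log (N : ℝ)) Filter.atTop Filter.atTop :=
    Real.tendsto_log_atTop.comp tendsto_natCast_atTop_atTop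
  obtain ⟨N₀, hN₀⟩ := Filter.eventually_atTop.1
    ((hlim1.eventually_ge_atTop (2 * C₁ / κ)).and (Filter.eventually_ge_atTop 3))
  refine ⟨N₀, fun N hNN A hA hAc => ?_⟩
  obtain ⟨h3, h5⟩ := hN₀ N hNN
  have hN1 : (1 : ℝ) < N := by exact_mod_cast (by omega : 1 < N)
  have hN0 : (0 : ℝ) < N := by linarith
  have hlog : 0 < Real.log N := Real.log_pos hN1
  obtain ⟨X, hX0, hX1, _, hX3⟩ := h N (by omega) (fun _ => 1) (fun _ => by norm_num) A hA hAc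
    (κ / 2) (by linarith)
  -- the primes above `N^(2/5)` are rough
  have hrough : ∀ q : ℕ, q ∈ Icc 1 ⌊(N : ℝ) ^ θ⌋₊ → q.Prime → (N : ℝ) ^ (2 / 5 : ℝ) < q →
      q ∈ roughs ((N : ℝ) ^ (2 / 5 : ℝ)) ⌊(N : ℝ) ^ θ⌋₊ := by
    intro q h1 h2 h4
    rw [mem_Icc] at h1
    rw [mem_roughs]
    refine ⟨h1, h2.one_lt, fun p hp hpq => ?_⟩
    rw [(Nat.prime_dvd_prime_iff_eq hp h2).1 hpq]
    exact h4
  refine ⟨fun q => if (q : ℝ) ≤ (N : ℝ) ^ (2 / 5 : ℝ) then ∅ else X q, ?_, ?_, ?_⟩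
  · intro q
    dsimp only
    split_ifs
    · exact empty_subset _
    · exact hX0 q
  · calc ∑ q ∈ (Icc 1 ⌊(N : ℝ) ^ θ⌋₊).filter Nat.Prime,
          (((if (q : ℝ) ≤ (N : ℝ) ^ (2 / 5 : ℝ) then ∅ else X q : Finset ℤ)).card : ℝ) / q
        = ∑ q ∈ ((Icc 1 ⌊(N : ℝ) ^ θ⌋₊).filter Nat.Prime).filter
            (fun q : ℕ => ¬ (q : ℝ) ≤ (N : ℝ) ^ (2 / 5 : ℝ)), ((X q).card : ℝ) / q := by
          rw [sum_filter (fun q : ℕ => ¬ (q : ℝ) ≤ (N : ℝ) ^ (2 / 5 : ℝ))]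
          refine sum_congr rfl fun q _ => ?_
          by_cases hq : (q : ℝ) ≤ (N : ℝ) ^ (2 / 5 : ℝ)
          · rw [if_pos hq, if_neg (by simpa using hq)]
            simp
          · rw [if_neg hq, if_pos hq]
      _ ≤ ∑ q ∈ ((Icc 1 ⌊(N : ℝ) ^ θ⌋₊).filter Nat.Prime).filter
            (fun q : ℕ => ¬ (q : ℝ) ≤ (N : ℝ) ^ (2 / 5 : ℝ)),
            ((X q).card : ℝ) / (Nat.totient q : ℝ) := by
          refine sum_le_sum fun q hq => ?_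
          rw [mem_filter, mem_filter] at hq
          have hφ : (0 : ℝ) < Nat.totient q := by
            exact_mod_cast Nat.totient_pos.2 hq.1.2.pos
          have h6 : (Nat.totient q : ℝ) ≤ q := by exact_mod_cast Nat.totient_le q
          gcongr
      _ ≤ ∑ q ∈ roughs ((N : ℝ) ^ (2 / 5 : ℝ)) ⌊(N : ℝ) ^ θ⌋₊,
            ((X q).card : ℝ) / (Nat.totient q : ℝ) := by
          refine sum_le_sum_of_subset_of_nonneg ?_ fun _ _ _ => by positivity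
          intro q hq
          rw [mem_filter, mem_filter, not_le] at hq
          exact hrough q hq.1.1 hq.1.2 hq.2
      _ ≤ C / (κ / 2) ^ 2 := hX1
      _ = 4 * C / κ ^ 2 := by field_simp; norm_num
  · intro α
    rw [← sum_filter_add_sum_filter_not ((Icc 1 ⌊(N : ℝ) ^ θ⌋₊).filter
      (fun q : ℕ => q.Prime ∧ α q ∈ A ∧ α q ∉ (if (q : ℝ) ≤ (N : ℝ) ^ (2 / 5 : ℝ) then ∅ else X q)
        ∧ ¬ (q : ℤ) ∣ α q)) (fun q : ℕ => (q : ℝ) ≤ (N : ℝ) ^ (2 / 5 : ℝ))]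
    have hsmall : ∑ q ∈ ((Icc 1 ⌊(N : ℝ) ^ θ⌋₊).filter
        (fun q : ℕ => q.Prime ∧ α q ∈ A ∧ α q ∉ (if (q : ℝ) ≤ (N : ℝ) ^ (2 / 5 : ℝ) then ∅ else X q)
        ∧ ¬ (q : ℤ) ∣ α q)).filter (fun q : ℕ => (q : ℝ) ≤ (N : ℝ) ^ (2 / 5 : ℝ)),
        |eprime N (α q) q| ≤ κ / 2 * (N / Real.log N) := by
      have h9 := h1 N h5 (fun d => TaskFP.cl (α d) d) (fun d _ => TaskFP.cl_cop (α d) d)
      have h10 : C₁ * (N / Real.log N ^ 2) ≤ κ / 2 * (N / Real.log N) := by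
        have h11 : C₁ ≤ κ / 2 * Real.log N := by
          rw [div_le_iff₀ hκ] at h3
          linarith
        calc C₁ * (N / Real.log N ^ 2) ≤ (κ / 2 * Real.log N) * (N / Real.log N ^ 2) := by
              gcongr
          _ = κ / 2 * (N / Real.log N) := by
              field_simp
      refine le_trans ?_ (h9.trans h10)
      calc ∑ q ∈ ((Icc 1 ⌊(N : ℝ) ^ θ⌋₊).filter
            (fun q : ℕ => q.Prime ∧ α q ∈ A ∧
              α q ∉ (if (q : ℝ) ≤ (N : ℝ) ^ (2 / 5 : ℝ) then ∅ else X q) ∧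
              ¬ (q : ℤ) ∣ α q)).filter (fun q : ℕ => (q : ℝ) ≤ (N : ℝ) ^ (2 / 5 : ℝ)),
            |eprime N (α q) q|
          = ∑ q ∈ ((Icc 1 ⌊(N : ℝ) ^ θ⌋₊).filter
            (fun q : ℕ => q.Prime ∧ α q ∈ A ∧
              α q ∉ (if (q : ℝ) ≤ (N : ℝ) ^ (2 / 5 : ℝ) then ∅ else X q) ∧
              ¬ (q : ℤ) ∣ α q)).filter (fun q : ℕ => (q : ℝ) ≤ (N : ℝ) ^ (2 / 5 : ℝ)),
            |Er N q (TaskFP.cl (α q) q)| := by
            refine sum_congr rfl fun q hq => ?_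
            rw [mem_filter, mem_filter] at hq
            rw [eprime_eq N (α q) q hq.1.2.1, TaskFP.df_eq N (α q) q hq.1.2.1 hq.1.2.2.2.2]
        _ ≤ _ := by
            refine sum_le_sum_of_subset_of_nonneg ?_ fun _ _ _ => abs_nonneg _
            intro q hq
            rw [mem_filter, mem_filter, mem_Icc] at hq
            rw [mem_Icc]
            exact ⟨hq.1.1.1, Nat.le_floor hq.2⟩
    have hlarge : ∑ q ∈ ((Icc 1 ⌊(N : ℝ) ^ θ⌋₊).filter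
        (fun q : ℕ => q.Prime ∧ α q ∈ A ∧ α q ∉ (if (q : ℝ) ≤ (N : ℝ) ^ (2 / 5 : ℝ) then ∅ else X q)
        ∧ ¬ (q : ℤ) ∣ α q)).filter (fun q : ℕ => ¬ (q : ℝ) ≤ (N : ℝ) ^ (2 / 5 : ℝ)),
        |eprime N (α q) q| ≤ κ / 2 * (N / Real.log N) := by
      refine le_trans ?_ (hX3 α)
      calc ∑ q ∈ ((Icc 1 ⌊(N : ℝ) ^ θ⌋₊).filter
            (fun q : ℕ => q.Prime ∧ α q ∈ A ∧
              α q ∉ (if (q : ℝ) ≤ (N : ℝ) ^ (2 / 5 : ℝ) then ∅ else X q) ∧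
              ¬ (q : ℤ) ∣ α q)).filter (fun q : ℕ => ¬ (q : ℝ) ≤ (N : ℝ) ^ (2 / 5 : ℝ)),
            |eprime N (α q) q|
          = ∑ q ∈ ((Icc 1 ⌊(N : ℝ) ^ θ⌋₊).filter
            (fun q : ℕ => q.Prime ∧ α q ∈ A ∧
              α q ∉ (if (q : ℝ) ≤ (N : ℝ) ^ (2 / 5 : ℝ) then ∅ else X q) ∧
              ¬ (q : ℤ) ∣ α q)).filter (fun q : ℕ => ¬ (q : ℝ) ≤ (N : ℝ) ^ (2 / 5 : ℝ)),
            |Df (fun _ => 1) N (α q) q| := by
            refine sum_congr rfl fun q hq => ?_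
            rw [mem_filter, mem_filter] at hq
            rw [eprime_eq N (α q) q hq.1.2.1]
        _ ≤ _ := by
            refine sum_le_sum_of_subset_of_nonneg ?_ fun _ _ _ => abs_nonneg _
            intro q hq
            rw [mem_filter, mem_filter] at hq
            obtain ⟨⟨h6, h7, h8, h9, h10⟩, h11⟩ := hq
            rw [if_neg h11] at h9
            rw [mem_filter]
            refine ⟨hrough q h6 h7 (not_le.1 h11), h8, h9, ?_⟩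
            have h12 : Nat.Coprime q (α q).natAbs := by
              rw [h7.coprime_iff_not_dvd]
              intro h
              exact h10 (Int.natCast_dvd.2 h)
            rw [Int.gcd_comm]
            exact h12
    linarith

end Pool.Agent.W109
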