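import Pool.Agent.W109.Ps

/-!
The diagonal of the Bessel inequality for sparse coefficients.
-/

set_option autoImplicit false

namespace Pool.Agent.W109

open Finset
open Pool.Agent.H442R2.KF
open Pool.Agent.H442R2.BX

lemma mem_roughs {y : ℝ} {X d : ℕ} : d ∈ roughs y X ↔ (1 ≤ d ∧ d ≤ X) ∧ Rough y d := by
  classical
  unfold roughs
  rw [mem_filter, mem_Icc]

lemma roughs_mono (y : ℝ) {X N : ℕ} (h : X ≤ N) : roughs y X ⊆ roughs y N := by
  intro d hd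
  rw [mem_roughs] at hd ⊢
  exact ⟨⟨hd.1.1, hd.1.2.trans h⟩, hd.2⟩

/-- pointwise bound -/
lemma Rf_sq_le (y : ℝ) (X : ℕ) (c : ℕ → ℝ) (hc : CofR y X c) (a n : ℤ) :
    Rf c X a n ^ 2 ≤ 2 * (((rd y X (n - a)).card : ℝ) *
      ∑ d ∈ Icc 1 X, c d ^ 2 * (if (d : ℤ) ∣ n - a then 1 else 0)) +
      2 * ((∑ d ∈ roughs y X, 1 / (d : ℝ)) * ∑ d ∈ Icc 1 X, c d ^ 2 / d) := by
  classical
  set U : ℝ := ∑ d ∈ Icc 1 X, c d * (if (d : ℤ) ∣ n - a then 1 else 0) with hU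
  set V : ℝ := ∑ d ∈ Icc 1 X, c d / d with hV
  have e0 : Rf c X a n = U - V := by
    unfold Rf dl
    rw [hU, hV, ← sum_sub_distrib]
    refine sum_congr rfl fun d _ => ?_
    ring
  have hsub : roughs y X ⊆ Icc 1 X := fun d hd => by
    rw [mem_Icc]; exact (mem_roughs.1 hd).1
  have hzero : ∀ d ∈ Icc 1 X, d ∉ roughs y X → c d = 0 := by
    intro d hd hn
    by_contra h
    rw [mem_Icc] at hd
    exact hn (mem_roughs.2 ⟨hd, (hc.supp d h).2⟩)
  have eU : U = ∑ d ∈ rd y X (n - a), c d := by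
    rw [hU]
    unfold rd
    rw [sum_filter]
    rw [← sum_subset hsub]
    · refine sum_congr rfl fun d _ => ?_
      split_ifs <;> simp
    · intro d hd hn
      rw [hzero d hd hn, zero_mul]
  have eU2 : ∑ d ∈ rd y X (n - a), c d ^ 2 ≤
      ∑ d ∈ Icc 1 X, c d ^ 2 * (if (d : ℤ) ∣ n - a then 1 else 0) := by
    unfold rd
    rw [sum_filter]
    calc ∑ d ∈ roughs y X, (if (d : ℤ) ∣ n - a then c d ^ 2 else 0)
        = ∑ d ∈ roughs y X, c d ^ 2 * (if (d : ℤ) ∣ n - a then 1 else 0) := by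
          refine sum_congr rfl fun d _ => ?_
          split_ifs <;> simp
      _ ≤ _ := sum_le_sum_of_subset_of_nonneg hsub fun d _ _ => by positivity
  have hU2 : U ^ 2 ≤ ((rd y X (n - a)).card : ℝ) *
      ∑ d ∈ Icc 1 X, c d ^ 2 * (if (d : ℤ) ∣ n - a then 1 else 0) := by
    rw [eU]
    refine (sq_sum_le_card_mul_sum_sq).trans ?_
    exact mul_le_mul_of_nonneg_left eU2 (Nat.cast_nonneg _)
  have eV : V = ∑ d ∈ roughs y X, c d / d := by
    rw [hV, ← sum_subset hsub]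
    intro d hd hn
    rw [hzero d hd hn, zero_div]
  have hV2 : V ^ 2 ≤ (∑ d ∈ roughs y X, 1 / (d : ℝ)) * ∑ d ∈ Icc 1 X, c d ^ 2 / d := by
    rw [eV]
    refine (Finset.sum_sq_le_sum_mul_sum_of_sq_eq_mul (roughs y X) (f := fun d : ℕ => 1 / (d : ℝ))
      (g := fun d : ℕ => c d ^ 2 / d) (fun d _ => by positivity) (fun d _ => by positivity)
      (fun d hd => ?_)).trans ?_
    · have hd1 : (0 : ℝ) < d := by
        have := (mem_roughs.1 hd).1.1
        exact_mod_cast this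
      field_simp
    · refine mul_le_mul_of_nonneg_left ?_ (sum_nonneg fun d _ => by positivity)
      exact sum_le_sum_of_subset_of_nonneg hsub fun d _ _ => by positivity
  rw [e0]
  nlinarith [sq_nonneg (U + V)]

lemma coprime_of_rough {y : ℝ} {z q d : ℕ} (hz : (z : ℝ) ≤ y) (hd : Rough y d) (hq1 : 1 ≤ q)
    (hqz : q ≤ z) : Nat.Coprime q d := by
  by_contra h
  rw [Nat.Prime.not_coprime_iff_dvd] at h
  obtain ⟨p, hp, h1, h2⟩ := h
  have h3 := hd.2 p hp h2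
  have h4 : p ≤ q := Nat.le_of_dvd hq1 h1
  have h5 : (p : ℝ) ≤ z := by exact_mod_cast h4.trans hqz
  linarith

/-- the diagonal, for sparse coefficients -/
theorem DI2 (hRC : St_RC) (hRA : St_RA) (hGS : St_GS) (hGW : St_GW) (hSM : St_SM) :
    ∀ ε : ℝ, 0 < ε → ∃ (N₀ : ℕ) (C : ℝ), 0 < C ∧ ∀ (N z X : ℕ), N₀ ≤ N → X ≤ N →
    2 ≤ z → (z : ℝ) ≤ (N : ℝ) ^ (1 / 4 : ℝ) → (z : ℝ) * z * X ≤ (N : ℝ) ^ (9 / 10 : ℝ) →
    (z : ℝ) ≤ (N : ℝ) ^ ε → ∀ lam : ℕ → ℝ, SW z lam →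
    ∀ c : ℕ → ℝ, CofR ((N : ℝ) ^ ε) X c → ∀ a : ℤ, |(a : ℝ)| ≤ N →
    ∑' n : ℤ, Wt N n * nuS lam z n * (rf c X a n * rf c X a n) ≤
      C * (N / Real.log z) * ∑ d ∈ Icc 1 X, c d ^ 2 / d := by
  classical
  intro ε hε
  obtain ⟨N₁, C₁, hC₁, hrc⟩ := hRC ε hε
  obtain ⟨C₂, hC₂, hra⟩ := hRA ε hε
  obtain ⟨N₂, hG⟩ := hGW
  obtain ⟨N₃, hP⟩ := PS hSM
  refine ⟨N₁ + N₂ + N₃ + 2, 24 * C₁ + 6 * C₂, by positivity, ?_⟩
  intro N z X hN hX hz hz4 hzX hzε lam hlam c hc a ha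
  have hN2 : 2 ≤ N := by omega
  have hN1 : 1 ≤ N := by omega
  have hNr : (1 : ℝ) ≤ N := by exact_mod_cast hN1
  have hN0 : (0 : ℝ) < N := by linarith
  have hz2 : (2 : ℝ) ≤ z := by exact_mod_cast hz
  have hlog : 0 < Real.log z := Real.log_pos (by linarith)
  obtain ⟨S, hS⟩ : ∃ S : ℝ, S = ∑ d ∈ Icc 1 X, c d ^ 2 / d := ⟨_, rfl⟩
  have hS0 : 0 ≤ S := by
    rw [hS]
    exact sum_nonneg fun d _ => by positivity
  have hw0 : ∀ (M : ℕ) (n : ℤ), 0 ≤ Wt M n := fun M n => (Real.exp_pos _).le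
  have hν0 := TaskDI.nuS_nonneg lam z
  have hW12 : ∀ n : ℤ, Wt N n * (1 + |(n : ℝ)| / N) ≤ 2 * Wt (2 * N) n := (hGS N hN1).1
  -- pointwise
  have hpt : ∀ n : ℤ, Wt N n * nuS lam z n * (rf c X a n * rf c X a n) ≤
      4 * C₁ * (∑ d ∈ Icc 1 X, c d ^ 2 *
        (Wt (2 * N) n * nuS lam z n * (if (d : ℤ) ∣ n - a then 1 else 0))) +
      2 * C₂ * S * (Wt N n * nuS lam z n) := by
    intro n
    have hE0 : 0 ≤ ∑ d ∈ Icc 1 X, c d ^ 2 * (if (d : ℤ) ∣ n - a then (1:ℝ) else 0) :=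
      sum_nonneg fun d _ => by positivity
    have hRHS : ∑ d ∈ Icc 1 X, c d ^ 2 *
        (Wt (2 * N) n * nuS lam z n * (if (d : ℤ) ∣ n - a then 1 else 0)) =
        Wt (2 * N) n * nuS lam z n *
          ∑ d ∈ Icc 1 X, c d ^ 2 * (if (d : ℤ) ∣ n - a then (1:ℝ) else 0) := by
      rw [mul_sum]
      exact sum_congr rfl fun d _ => by ring
    rw [hRHS]
    by_cases hna : n = a
    · have : rf c X a n = 0 := by unfold rf; rw [if_pos hna]
      rw [this, mul_zero, mul_zero]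
      have h1 := mul_nonneg (hw0 (2 * N) n) (hν0 n)
      have h2 := mul_nonneg (hw0 N n) (hν0 n)
      have h3 := mul_nonneg h1 hE0
      positivity
    · have e1 : rf c X a n = Rf c X a n := by unfold rf; rw [if_neg hna]
      have h1 := Rf_sq_le _ X c hc a n
      rw [← hS] at h1
      have h2 := hrc N X (by omega) a n ha hna
      have hb : (1 + |(n : ℝ)| / N) ^ (1 / 4 : ℝ) ≤ 1 + |(n : ℝ)| / N := by
        have h0 : 0 ≤ |(n : ℝ)| / N := by positivity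
        calc (1 + |(n : ℝ)| / N) ^ (1 / 4 : ℝ) ≤ (1 + |(n : ℝ)| / N) ^ (1 : ℝ) :=
              Real.rpow_le_rpow_of_exponent_le (by linarith) (by norm_num)
          _ = _ := Real.rpow_one _
      have h3 : ∑ d ∈ roughs ((N : ℝ) ^ ε) X, 1 / (d : ℝ) ≤ C₂ :=
        (sum_le_sum_of_subset_of_nonneg (roughs_mono _ hX) fun _ _ _ => by positivity).trans
          (hra N hN2)
      obtain ⟨E, hE⟩ : ∃ E : ℝ, E = ∑ d ∈ Icc 1 X, c d ^ 2 *
        (if (d : ℤ) ∣ n - a then (1:ℝ) else 0) := ⟨_, rfl⟩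
      rw [← hE] at h1 hE0 ⊢
      have h4 : rf c X a n * rf c X a n ≤ 2 * C₁ * E * (1 + |(n : ℝ)| / N) + 2 * C₂ * S := by
        rw [e1, ← sq]
        refine h1.trans ?_
        have h5 : ((rd ((N : ℝ) ^ ε) X (n - a)).card : ℝ) * E ≤
            C₁ * (1 + |(n : ℝ)| / N) * E := by
          refine mul_le_mul_of_nonneg_right (h2.trans ?_) hE0
          exact mul_le_mul_of_nonneg_left hb hC₁.le
        have h6 : (∑ d ∈ roughs ((N : ℝ) ^ ε) X, 1 / (d : ℝ)) * S ≤ C₂ * S :=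
          mul_le_mul_of_nonneg_right h3 hS0
        linarith
      have hWν := mul_nonneg (hw0 N n) (hν0 n)
      calc Wt N n * nuS lam z n * (rf c X a n * rf c X a n)
          ≤ Wt N n * nuS lam z n * (2 * C₁ * E * (1 + |(n : ℝ)| / N) + 2 * C₂ * S) :=
            mul_le_mul_of_nonneg_left h4 hWν
        _ = 2 * C₁ * E * nuS lam z n * (Wt N n * (1 + |(n : ℝ)| / N)) +
              2 * C₂ * S * (Wt N n * nuS lam z n) := by ring
        _ ≤ 2 * C₁ * E * nuS lam z n * (2 * Wt (2 * N) n) +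
              2 * C₂ * S * (Wt N n * nuS lam z n) := by
            have h7 : 0 ≤ 2 * C₁ * E * nuS lam z n := by
              have := hν0 n
              positivity
            have := mul_le_mul_of_nonneg_left (hW12 n) h7
            linarith
        _ = _ := by ring
  -- summability
  have hsd : ∀ d : ℕ, Summable (fun n : ℤ => Wt (2 * N) n * nuS lam z n *
      (if (d : ℤ) ∣ n - a then (1:ℝ) else 0)) := by
    intro d
    refine Summable.of_nonneg_of_le (fun n => ?_) (fun n => ?_)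
      (TaskDI.sum_nuS (lam := lam) (z := z) hlam.bd (2 * N) (by omega))
    · exact mul_nonneg (mul_nonneg (hw0 _ n) (hν0 n)) (by split_ifs <;> norm_num)
    · have h1 := mul_nonneg (hw0 (2 * N) n) (hν0 n)
      split_ifs
      · linarith
      · simpa using h1
  have hs1 : Summable (fun n : ℤ => ∑ d ∈ Icc 1 X, c d ^ 2 *
        (Wt (2 * N) n * nuS lam z n * (if (d : ℤ) ∣ n - a then (1:ℝ) else 0))) :=
    summable_sum fun d _ => (hsd d).mul_left _
  have hs0 := TaskDI.sum_nuS (lam := lam) (z := z) hlam.bd N hN1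
  have hs2 : Summable (fun n : ℤ => 4 * C₁ * (∑ d ∈ Icc 1 X, c d ^ 2 *
        (Wt (2 * N) n * nuS lam z n * (if (d : ℤ) ∣ n - a then (1:ℝ) else 0))) +
      2 * C₂ * S * (Wt N n * nuS lam z n)) := (hs1.mul_left _).add (hs0.mul_left _)
  have h0 : ∀ n : ℤ, 0 ≤ Wt N n * nuS lam z n * (rf c X a n * rf c X a n) := fun n =>
    mul_nonneg (mul_nonneg (hw0 _ _) (hν0 n)) (mul_self_nonneg _)
  have hs3 : Summable (fun n : ℤ => Wt N n * nuS lam z n * (rf c X a n * rf c X a n)) :=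
    Summable.of_nonneg_of_le h0 hpt hs2
  have hmain := hs3.tsum_le_tsum hpt hs2
  refine hmain.trans ?_
  rw [Summable.tsum_add (hs1.mul_left _) (hs0.mul_left _), tsum_mul_left, tsum_mul_left,
    Summable.tsum_finsetSum (fun d _ => (hsd d).mul_left _)]
  have hN910 : (N : ℝ) ^ (9 / 10 : ℝ) ≤ ((2 * N : ℕ) : ℝ) ^ (9 / 10 : ℝ) := by
    refine Real.rpow_le_rpow hN0.le ?_ (by norm_num)
    push_cast
    linarith
  have hd1 : ∀ d ∈ Icc 1 X, ∑' n : ℤ, c d ^ 2 * (Wt (2 * N) n * nuS lam z n *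
      (if (d : ℤ) ∣ n - a then (1:ℝ) else 0)) ≤ 6 * (N / Real.log z) * (c d ^ 2 / d) := by
    intro d hd
    rw [mem_Icc] at hd
    rw [tsum_mul_left]
    by_cases h0 : c d = 0
    · rw [h0]; simp
    · have hr := hc.supp d h0
      have hdX : (z : ℝ) * z * d ≤ ((2 * N : ℕ) : ℝ) ^ (9 / 10 : ℝ) := by
        refine le_trans ?_ (hzX.trans hN910)
        have : (d : ℝ) ≤ X := by exact_mod_cast hr.1
        gcongr
      have h1 := hP (2 * N) z d (by omega) hz hd.1 hdX lam hlam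
        (fun q hq1 hqz => coprime_of_rough hzε hr.2 hq1 hqz) a
      have hd0 : (0 : ℝ) < d := by exact_mod_cast hd.1
      calc c d ^ 2 * _ ≤ c d ^ 2 * (3 * (((2 * N : ℕ) : ℝ) / (d * Real.log z))) :=
            mul_le_mul_of_nonneg_left h1 (sq_nonneg _)
        _ = 6 * (N / Real.log z) * (c d ^ 2 / d) := by
            push_cast
            field_simp
            ring
  have hA : ∑ d ∈ Icc 1 X, ∑' n : ℤ, c d ^ 2 * (Wt (2 * N) n * nuS lam z n *
      (if (d : ℤ) ∣ n - a then (1:ℝ) else 0)) ≤ 6 * (N / Real.log z) * S := by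
    rw [hS, mul_sum]
    exact sum_le_sum hd1
  have hB := hG N z (by omega) hz hz4 lam hlam
  have hB' : ∑' n : ℤ, Wt N n * nuS lam z n ≤ 3 * (N / Real.log z) := by
    calc _ ≤ 3 * (N : ℝ) / Real.log z := hB
      _ = _ := by ring
  rw [← hS]
  calc 4 * C₁ * (∑ d ∈ Icc 1 X, ∑' n : ℤ, c d ^ 2 * (Wt (2 * N) n * nuS lam z n *
      (if (d : ℤ) ∣ n - a then (1:ℝ) else 0))) + 2 * C₂ * S * ∑' n : ℤ, Wt N n * nuS lam z n
      ≤ 4 * C₁ * (6 * (N / Real.log z) * S) + 2 * C₂ * S * (3 * (N / Real.log z)) := by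
        gcongr
    _ = _ := by ring

end Pool.Agent.W109
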