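import Pool.Agent.H442R2.BX.Defs
import Pool.Agent.H442R2.BX.Gw
import Pool.Agent.H442R2.BX.Di

/-!
The sieve weight of Selberg along an arithmetic progression, and the diagonal of the Bessel
inequality for sparse coefficients.
-/

set_option autoImplicit false

namespace Pool.Agent.W109

open Finset
open Pool.Agent.H442R2.KF
open Pool.Agent.H442R2.BX

/-- one term -/
noncomputable def tp (N : ℕ) (a : ℤ) (d q : ℕ) (n : ℤ) : ℝ :=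
  if ((q : ℤ) ∣ n ∧ (d : ℤ) ∣ n - a ∧ ((1 : ℕ) : ℤ) ∣ n - 0) then Wt N n else 0

lemma tp_eq (N : ℕ) (a : ℤ) (d q : ℕ) (n : ℤ) :
    tp N a d q n = if ((q : ℤ) ∣ n ∧ (d : ℤ) ∣ n - a) then Wt N n else 0 := by
  unfold tp
  have h : ((1 : ℕ) : ℤ) ∣ n - 0 := by simp
  by_cases hq : (q : ℤ) ∣ n <;> by_cases hd : (d : ℤ) ∣ n - a <;> simp [hq, hd]

lemma tp_summable (N : ℕ) (hN : 1 ≤ N) (a : ℤ) (d q : ℕ) : Summable (tp N a d q) := by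
  have h0 : ∀ n : ℤ, 0 ≤ Wt N n := fun n => (Real.exp_pos _).le
  refine Summable.of_nonneg_of_le (fun n => ?_) (fun n => ?_) (TaskGW.Wt_summable N hN)
  · rw [tp_eq]; split_ifs
    · exact h0 n
    · exact le_rfl
  · rw [tp_eq]; split_ifs
    · exact le_rfl
    · exact h0 n

lemma SE_eq (N : ℕ) (a : ℤ) (d q : ℕ) : SE N a 0 q d 1 = ∑' n : ℤ, tp N a d q n := rfl

lemma term_eq (N : ℕ) (lam : ℕ → ℝ) (z : ℕ) (a : ℤ) (d : ℕ) (n : ℤ) :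
    Wt N n * nuS lam z n * (if (d : ℤ) ∣ n - a then 1 else 0) =
      ∑ q₁ ∈ Icc 1 z, ∑ q₂ ∈ Icc 1 z, lam q₁ * lam q₂ * tp N a d (Nat.lcm q₁ q₂) n := by
  unfold nuS
  rw [sq, sum_filter, sum_mul_sum, mul_sum, sum_mul]
  refine sum_congr rfl fun q₁ _ => ?_
  rw [mul_sum, sum_mul]
  refine sum_congr rfl fun q₂ _ => ?_
  rw [tp_eq]
  have hl : ((Nat.lcm q₁ q₂ : ℕ) : ℤ) ∣ n ↔ ((q₁ : ℤ) ∣ n ∧ (q₂ : ℤ) ∣ n) := by
    rw [Int.natCast_dvd, Int.natCast_dvd, Int.natCast_dvd, Nat.lcm_dvd_iff]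
  by_cases h1 : (q₁ : ℤ) ∣ n <;> by_cases h2 : (q₂ : ℤ) ∣ n <;>
    by_cases h3 : (d : ℤ) ∣ n - a <;> simp [hl, h1, h2, h3]
  ring

/-- the sum of the sieve weight over a progression -/
theorem PS (hSM : St_SM) : ∃ N₀ : ℕ, ∀ (N z d : ℕ), N₀ ≤ N → 2 ≤ z → 1 ≤ d →
    ((z : ℝ) * z * d ≤ (N : ℝ) ^ (9 / 10 : ℝ)) → ∀ lam : ℕ → ℝ, SW z lam →
    (∀ q, 1 ≤ q → q ≤ z → Nat.Coprime q d) → ∀ a : ℤ,
    ∑' n : ℤ, Wt N n * nuS lam z n * (if (d : ℤ) ∣ n - a then 1 else 0) ≤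
      3 * (N / (d * Real.log z)) := by
  obtain ⟨N₀, hN₀⟩ := hSM
  refine ⟨N₀ + 1, ?_⟩
  intro N z d hN hz hd hzd lam hlam hcop a
  have hN1 : 1 ≤ N := by omega
  have hNR : (1 : ℝ) ≤ (N : ℝ) := by exact_mod_cast hN1
  have hN0 : (0 : ℝ) < (N : ℝ) := by linarith
  have hz2 : (2 : ℝ) ≤ (z : ℝ) := by exact_mod_cast hz
  have hd1 : (1 : ℝ) ≤ (d : ℝ) := by exact_mod_cast hd
  have hd0 : (0 : ℝ) < (d : ℝ) := by linarith
  have hlog : 0 < Real.log z := Real.log_pos (by linarith)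
  -- expansion
  have e1 : ∑' n : ℤ, Wt N n * nuS lam z n * (if (d : ℤ) ∣ n - a then 1 else 0) =
      ∑ q₁ ∈ Icc 1 z, ∑ q₂ ∈ Icc 1 z, lam q₁ * lam q₂ * SE N a 0 (Nat.lcm q₁ q₂) d 1 := by
    simp only [term_eq]
    rw [Summable.tsum_finsetSum]
    · refine sum_congr rfl fun q₁ _ => ?_
      rw [Summable.tsum_finsetSum]
      · refine sum_congr rfl fun q₂ _ => ?_
        rw [tsum_mul_left, SE_eq]
      · intro q₂ _
        exact (tp_summable N hN1 _ _ _).mul_left _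
    · intro q₁ _
      exact summable_sum fun q₂ _ => (tp_summable N hN1 _ _ _).mul_left _
  have hNN : (N : ℝ) ^ (9 / 10 : ℝ) ≤ N := by
    calc (N : ℝ) ^ (9 / 10 : ℝ) ≤ (N : ℝ) ^ (1 : ℝ) :=
          Real.rpow_le_rpow_of_exponent_le hNR (by norm_num)
      _ = N := Real.rpow_one _
  -- one term
  have e2 : ∀ q₁ ∈ Icc 1 z, ∀ q₂ ∈ Icc 1 z, lam q₁ * lam q₂ * SE N a 0 (Nat.lcm q₁ q₂) d 1 ≤
      ((N : ℝ) / d) * (lam q₁ * lam q₂ / (Nat.lcm q₁ q₂ : ℝ)) + 1 / (N : ℝ) ^ 5 := by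
    intro q₁ hq₁ q₂ hq₂
    rw [mem_Icc] at hq₁ hq₂
    have hl1 : 1 ≤ Nat.lcm q₁ q₂ := Nat.lcm_pos (by omega) (by omega)
    have hl2 : Nat.lcm q₁ q₂ ≤ q₁ * q₂ :=
      Nat.le_of_dvd (Nat.mul_pos (by omega) (by omega)) (Nat.lcm_dvd_mul q₁ q₂)
    have hl3 : ((Nat.lcm q₁ q₂ : ℕ) : ℝ) * (d : ℝ) ≤ (N : ℝ) ^ (9 / 10 : ℝ) := by
      have h1 : ((Nat.lcm q₁ q₂ : ℕ) : ℝ) ≤ (z : ℝ) * z := by
        have : Nat.lcm q₁ q₂ ≤ z * z := hl2.trans (Nat.mul_le_mul hq₁.2 hq₂.2)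
        exact_mod_cast this
      exact (mul_le_mul_of_nonneg_right h1 hd0.le).trans hzd
    have hco : Nat.Coprime (Nat.lcm q₁ q₂) d :=
      Nat.Coprime.coprime_dvd_left (Nat.lcm_dvd_mul q₁ q₂)
        (Nat.Coprime.mul_left (hcop q₁ hq₁.1 hq₁.2) (hcop q₂ hq₂.1 hq₂.2))
    have hsm := (hN₀ N (by omega) a 0 (Nat.lcm q₁ q₂) d hl1 hd hco hl3).1
    have hb : |lam q₁ * lam q₂| ≤ 1 := by
      rw [abs_mul]
      exact mul_le_one₀ (hlam.bd q₁) (abs_nonneg _) (hlam.bd q₂)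
    have h3 : lam q₁ * lam q₂ * (SE N a 0 (Nat.lcm q₁ q₂) d 1 -
        N / ((Nat.lcm q₁ q₂ : ℝ) * (d : ℝ))) ≤ 1 / (N : ℝ) ^ 5 := by
      refine (le_abs_self _).trans ?_
      rw [abs_mul]
      calc _ ≤ 1 * |SE N a 0 (Nat.lcm q₁ q₂) d 1 - N / ((Nat.lcm q₁ q₂ : ℝ) * (d : ℝ))| :=
            mul_le_mul_of_nonneg_right hb (abs_nonneg _)
        _ ≤ _ := by rw [one_mul]; exact hsm
    have h4 : lam q₁ * lam q₂ * (N / ((Nat.lcm q₁ q₂ : ℝ) * (d : ℝ))) =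
        ((N : ℝ) / d) * (lam q₁ * lam q₂ / (Nat.lcm q₁ q₂ : ℝ)) := by
      rw [div_mul_div_comm, mul_div_assoc', mul_comm (d : ℝ)]
      ring
    linarith [mul_sub (lam q₁ * lam q₂) (SE N a 0 (Nat.lcm q₁ q₂) d 1)
      (N / ((Nat.lcm q₁ q₂ : ℝ) * (d : ℝ)))]
  have e3 : ∑ q₁ ∈ Icc 1 z, ∑ q₂ ∈ Icc 1 z, lam q₁ * lam q₂ * SE N a 0 (Nat.lcm q₁ q₂) d 1 ≤
      ((N : ℝ) / d) * (∑ q₁ ∈ Icc 1 z, ∑ q₂ ∈ Icc 1 z, lam q₁ * lam q₂ / (Nat.lcm q₁ q₂ : ℝ)) +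
        (z : ℝ) * (z * (1 / (N : ℝ) ^ 5)) := by
    calc _ ≤ ∑ q₁ ∈ Icc 1 z, ∑ q₂ ∈ Icc 1 z, (((N : ℝ) / d) * (lam q₁ * lam q₂ /
          (Nat.lcm q₁ q₂ : ℝ)) + 1 / (N : ℝ) ^ 5) :=
          sum_le_sum fun q₁ h₁ => sum_le_sum fun q₂ h₂ => e2 q₁ h₁ q₂ h₂
      _ = _ := by
          simp only [sum_add_distrib, sum_const, Nat.card_Icc, nsmul_eq_mul, mul_sum,
            Nat.add_sub_cancel]
  have hNd : 0 ≤ (N : ℝ) / d := by positivity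
  have e4 := mul_le_mul_of_nonneg_left hlam.form hNd
  have e5 : (z : ℝ) * (z * (1 / (N : ℝ) ^ 5)) ≤ N / (d * Real.log z) := by
    have h0 : Real.log z ≤ z := (Real.log_le_sub_one_of_pos (by linarith)).trans (by linarith)
    have hzN : (z : ℝ) ≤ N := by
      have : (z : ℝ) ≤ z * z * d := by nlinarith
      linarith
    have hzzd : (z : ℝ) * z * d ≤ N := hzd.trans hNN
    rw [le_div_iff₀ (by positivity)]
    have h1 : (z : ℝ) * (z * (1 / (N : ℝ) ^ 5)) * (d * Real.log z) =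
        (z * z * d) * Real.log z / (N : ℝ) ^ 5 := by ring
    rw [h1, div_le_iff₀ (by positivity)]
    have h2 : (z : ℝ) * z * d * Real.log z ≤ N * N := by
      apply mul_le_mul hzzd (h0.trans hzN) hlog.le hN0.le
    calc (z : ℝ) * z * d * Real.log z ≤ N * N := h2
      _ = (N : ℝ) ^ 2 := by ring
      _ ≤ (N : ℝ) ^ 6 := pow_le_pow_right₀ hNR (by norm_num)
      _ = N * (N : ℝ) ^ 5 := by ring
  rw [e1]
  refine e3.trans ?_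
  have e6 : 3 * ((N : ℝ) / (d * Real.log z)) = (N / d) * (2 / Real.log z) +
      N / (d * Real.log z) := by
    rw [div_mul_div_comm]
    ring
  rw [e6]
  linarith

end Pool.Agent.W109
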